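import Pool.Agent.H353R7.F4

/-!
# Positivity of the derivatives at the centre, from the saddle point estimate
-/

set_option autoImplicit false

open Complex Set MeasureTheory intervalIntegral Filter Topology
open scoped ComplexConjugate NNReal ENNReal

namespace Pool.Agent.TH803.LU

open H353.E H353.F

variable {Ψ P : ℂ → ℂ} {n : ℕ} {δ κ G X : ℝ}

/-- the saddle point is real -/
lemma saddle_real (L : Loc Ψ P n δ κ G 0 X)
    (hP : ∀ u : ℂ, u ∈ Reg δ X → P (conj u) = conj (P u)) :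
    ∃ w : ℝ, 0 < w ∧ Sad P n δ κ X 0 (w : ℂ) := by
  obtain ⟨w, hw1, hw2⟩ := L.saddle (b := 0) le_rfl L.hX
  have hn := L.npos
  have hκ := L.hκ
  have hks := L.ksm
  have hκ' := L.hκ'
  have hδ := L.hδ
  have hX := L.hX
  rw [Complex.ofReal_zero, zero_add] at hw1
  have hmem : ∀ v : ℂ, ‖v - 1‖ ≤ 2 * κ → v ∈ Reg δ X := fun v hv => by
    have h1 := abs_le.mp ((Complex.abs_re_le_norm (v - 1)).trans hv)
    have h2 := abs_le.mp ((Complex.abs_im_le_norm (v - 1)).trans hv)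
    simp only [sub_re, one_re, sub_im, one_im, sub_zero] at h1 h2
    refine ⟨by linarith, by linarith, abs_le.mpr ⟨by linarith, by linarith⟩⟩
  have hwc : ‖conj w - 1‖ ≤ 2 * κ := by
    have e : conj w - 1 = conj (w - 1) := by simp
    rw [e, Complex.norm_conj]
    exact hw2
  have h1 : conj w * P (conj w) = n := by
    rw [hP w (hmem w hw2), ← map_mul, hw1]
    simp
  have hreal : conj w = w := by
    by_contra hne
    have hpos : 0 < ‖w - conj w‖ := norm_pos_iff.2 (sub_ne_zero.2 (Ne.symm hne))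
    have e : (w - conj w) * P w = conj w * (P (conj w) - P w) := by
      linear_combination hw1 - h1
    have h2 : ‖w - conj w‖ * ((1 - κ) * n) ≤ ‖(w - conj w) * P w‖ := by
      rw [norm_mul]
      have := (L.Plow (hmem w hw2)).trans (re_le_norm _)
      gcongr
    have h3 : ‖conj w * (P (conj w) - P w)‖ ≤ (1 + 2 * κ) * (κ * n * ‖w - conj w‖) := by
      rw [norm_mul]
      have h4 := L.lipP (hmem w hw2) (hmem _ hwc)
      have h5 : ‖conj w‖ ≤ 1 + 2 * κ := by
        calc ‖conj w‖ = ‖(conj w - 1) + 1‖ := by ring_nf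
          _ ≤ ‖conj w - 1‖ + ‖(1 : ℂ)‖ := norm_add_le _ _
          _ ≤ 1 + 2 * κ := by rw [norm_one]; linarith
      have h6 : ‖P (conj w) - P w‖ ≤ κ * n * ‖w - conj w‖ := by
        rw [norm_sub_rev (P (conj w))]
        exact h4
      have h7 : 0 ≤ 1 + 2 * κ := by linarith
      gcongr
    rw [e] at h2
    have h8 := h2.trans h3
    have h9 : (1 + 2 * κ) * (κ * n * ‖w - conj w‖) = ‖w - conj w‖ * ((1 + 2 * κ) * κ * n) := by ring
    rw [h9] at h8
    have h10 := le_of_mul_le_mul_left h8 hpos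
    have h11 := le_of_mul_le_mul_right h10 hn
    nlinarith
  obtain ⟨r, hr⟩ := Complex.conj_eq_iff_real.1 hreal
  have hr0 : 0 < r := by
    have h1 := abs_le.mp ((Complex.abs_re_le_norm (w - 1)).trans hw2)
    rw [hr] at h1
    simp only [sub_re, one_re, ofReal_re] at h1
    linarith
  refine ⟨r, hr0, ?_, ?_, le_rfl, hX⟩
  · rw [← hr, Complex.ofReal_zero, zero_add]
    exact hw1
  · rw [← hr]
    exact hw2

/-- positivity of the half circle integral -/
lemma IA_pos (L : Loc Ψ P n δ κ G 0 X) {w : ℝ} (hw : 0 < w) (S : Sad P n δ κ X 0 (w : ℂ)) {a : ℝ}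
    (ha : 0 ≤ a) (hΨ : Ψ (1 / 2 + w) = a) : 0 < (IA Ψ n w (1 / 2)).re := by
  have hn := L.npos
  have hn1 := L.hn
  have hδ := L.hδ
  obtain ⟨ha0, ha2, ha3, ha4⟩ := ang_facts L
  have hξ : |(0 : ℝ)| ≤ 2 / n := by rw [abs_zero]; positivity
  have hcc : cc 0 = 1 / 2 := by unfold cc; simp
  obtain ⟨g, hg⟩ : ∃ g : ℂ, g = Ψ (cc 0 + (((0 + 0 : ℝ) : ℂ) + (w : ℂ))) := ⟨_, rfl⟩
  have hga : g = (a : ℂ) := by
    rw [hg, hcc, ← hΨ]
    congr 1
    push_cast
    ring
  have hgpos : 0 < ‖g‖ := by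
    rw [hg]
    exact G_pos L S hξ
  have hgn : ‖g‖ = a := by rw [hga, Complex.norm_real, Real.norm_eq_abs, abs_of_nonneg ha]
  have hapos : 0 < a := by rw [← hgn]; exact hgpos
  have hq0 := Real.sqrt_pos.mpr hn
  have hwn : ‖(w : ℂ)‖ = w := by rw [Complex.norm_real, Real.norm_eq_abs, abs_of_pos hw]
  have harg : arg (w : ℂ) = 0 := Complex.arg_ofReal_of_nonneg hw.le
  -- the outer part
  have h1 := IA_split L.diff.continuous L S (s := cc 0 + ((0 + 0 : ℝ) : ℂ))
    (M := Real.exp (-(n * δ / 20)) * ‖g‖) (fun θ h1 h2 => by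
      have := outer_right L S hξ h1 h2 (τ := 0) (by rw [norm_zero]; linarith [L.hδ])
      rw [add_zero, ← hg] at this
      rwa [add_assoc])
  rw [harg, hwn] at h1
  have e0 : cexp (-((n : ℂ) * ((0 : ℝ) : ℂ) * I)) = 1 := by simp
  rw [e0, one_mul] at h1
  have hs : cc 0 + ((0 + 0 : ℝ) : ℂ) = 1 / 2 := by rw [hcc]; simp
  -- the central part
  obtain ⟨J, hJ⟩ : ∃ J : ℂ, J = ∫ u in (-ang δ)..(ang δ), Ψ (cc 0 + (((0 + 0 : ℝ) : ℂ) + w * cexp (u * I))) *
      cexp (-(n * u * I)) := ⟨_, rfl⟩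
  have hF := (contF L ((0 + 0 : ℝ) : ℂ) (w : ℂ)).intervalIntegrable (μ := volume) (-ang δ) (ang δ)
  have hgc : Continuous (fun u : ℝ => g * (Real.exp (-(n * u ^ 2 / 2)) : ℝ)) := by fun_prop
  have hg5 : Continuous (fun u : ℝ => ‖g‖ * (1 / 100 * Real.exp (-(n * u ^ 2 / 5)))) := by fun_prop
  have h2 : ‖J - ∫ u in (-ang δ)..(ang δ), g * (Real.exp (-(n * u ^ 2 / 2)) : ℝ)‖ ≤
      ‖g‖ * (1 / 100 * (4 / Real.sqrt n)) := by
    rw [hJ, ← intervalIntegral.integral_sub hF (hgc.intervalIntegrable _ _)]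
    refine (intervalIntegral.norm_integral_le_of_norm_le (by linarith)
      (Filter.Eventually.of_forall fun u hu => ?_) (hg5.intervalIntegrable _ _)).trans ?_
    · have := pt L S hξ (u := u) (abs_le.mpr ⟨by linarith [hu.1], hu.2⟩)
      rw [← hg] at this
      exact this
    · rw [intervalIntegral.integral_const_mul, intervalIntegral.integral_const_mul]
      gcongr
      exact gauss_up hn ha0.le
  have h3 : (∫ u in (-ang δ)..(ang δ), g * (Real.exp (-(n * u ^ 2 / 2)) : ℝ)) =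
      ((a * ∫ u in (-ang δ)..(ang δ), Real.exp (-(n * u ^ 2 / 2)) : ℝ) : ℂ) := by
    rw [intervalIntegral.integral_const_mul, intervalIntegral.integral_ofReal, hga]
    push_cast
    rfl
  have h4 := gauss_low (n := (n : ℝ)) hn (a := ang δ) (by linarith)
  have h5 : a * (1 / Real.sqrt n) ≤ a * ∫ u in (-ang δ)..(ang δ), Real.exp (-(n * u ^ 2 / 2)) := by
    gcongr
  have h6 := (abs_le.1 ((Complex.abs_re_le_norm _).trans h2)).1
  rw [h3, sub_re, ofReal_re, hgn] at h6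
  have h7 : 4 * (Real.exp (-(n * δ / 20)) * ‖g‖) ≤ 1 / 10 * (a / Real.sqrt n) := by
    have hE := E_small L
    rw [hgn]
    have h8 : 4 * (1 / (n : ℝ) ^ 4) ≤ 1 / 10 / Real.sqrt n := by
      rw [mul_one_div, div_div, div_le_div_iff₀ (by positivity) (by positivity)]
      have hqn : Real.sqrt n ≤ n := by
        refine Real.sqrt_le_iff.mpr ⟨hn.le, ?_⟩
        nlinarith
      have h9 : 40 * (n : ℝ) ≤ n ^ 4 := by
        have : 40 ≤ (n : ℝ) ^ 3 := by
          calc (40 : ℝ) ≤ 1000000000000 := by norm_num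
            _ ≤ n := hn1
            _ = n ^ 1 := by ring
            _ ≤ (n : ℝ) ^ 3 := pow_le_pow_right₀ (by linarith) (by norm_num)
        calc 40 * (n : ℝ) ≤ n ^ 3 * n := by gcongr
          _ = n ^ 4 := by ring
      linarith
    calc 4 * (Real.exp (-(n * δ / 20)) * a) = 4 * Real.exp (-(n * δ / 20)) * a := by ring
      _ ≤ 4 * (1 / (n : ℝ) ^ 4) * a := by gcongr
      _ ≤ 1 / 10 / Real.sqrt n * a := by gcongr
      _ = _ := by ring
  have h10 : ‖IA Ψ n w (1 / 2) - J‖ ≤ 4 * (Real.exp (-(n * δ / 20)) * ‖g‖) := by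
    rw [hJ, ← hs]
    have e : ∀ u : ℝ, cc 0 + (((0 + 0 : ℝ) : ℂ) + w * cexp (u * I)) =
        cc 0 + ((0 + 0 : ℝ) : ℂ) + w * cexp (u * I) := fun u => by ring
    simp only [e]
    exact h1
  have h11 := (abs_le.1 ((Complex.abs_re_le_norm _).trans (h10.trans h7))).1
  rw [sub_re] at h11
  have h12 : 0 < a / Real.sqrt n := by positivity
  have e1 : a * (1 / Real.sqrt n) = a / Real.sqrt n := by ring
  have e2 : a * (1 / 100 * (4 / Real.sqrt n)) = 4 / 100 * (a / Real.sqrt n) := by ring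
  rw [e1] at h5
  rw [e2] at h6
  linarith

/-- **Positivity at the centre.** -/
theorem center_pos (L : Loc Ψ P n δ κ G 0 X) (hev : Even n)
    (hfe : ∀ s : ℂ, Ψ s = conj (Ψ (1 - conj s)))
    (hP : ∀ u : ℂ, u ∈ Reg δ X → P (conj u) = conj (P u))
    (hΨ : ∀ x : ℝ, 0 < x → ∃ a : ℝ, 0 ≤ a ∧ Ψ (1 / 2 + x) = a) :
    0 < (iteratedDeriv n Ψ (1 / 2)).re := by
  obtain ⟨w, hw, S⟩ := saddle_real L hP
  obtain ⟨a, ha, haw⟩ := hΨ w hw
  have h1 := IA_pos L hw S ha haw
  have h2 := circ_IA L.diff (ε := 1) (fun s => by rw [one_mul]; exact hfe s) hw n (1 / 2)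
  have e : (1 : ℂ) - conj (1 / 2 : ℂ) = 1 / 2 := by
    have : conj (1 / 2 : ℂ) = 1 / 2 := by
      rw [map_div₀, map_one, map_ofNat]
    rw [this]
    norm_num
  rw [e, hev.neg_one_pow, one_mul, one_mul] at h2
  rw [h2, Complex.re_ofReal_mul, add_re, Complex.conj_re]
  have : 0 < (n.factorial / (2 * Real.pi * w ^ n) : ℝ) := by
    have := Real.pi_pos
    positivity
  exact mul_pos this (by linarith)

end Pool.Agent.TH803.LU
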