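import Pool.Agent.TH803.LU.ULp
import Pool.Agent.W355.UN.Ab2

/-!
# Elliptic curves over abelian number fields
-/

set_option autoImplicit false

open Complex Filter Topology Set UpperHalfPlane MatrixGroups CongruenceSubgroup
open scoped ComplexConjugate

namespace Pool.Agent.TH803.LU

open Pool.Agent.W355.UN Pool.Agent.W355.LJ
open Pool.Agent.W169.HF (IsForm coef)

theorem LC_const_mul {f : ℂ → ℂ} (hf : Differentiable ℂ f) (c : ℂ) (n : ℕ) :
    LC (fun u => c * f u) n = ‖c‖ ^ 2 * LC f n := by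
  have e : EE (fun u => c * f u) = fun z => ((‖c‖ ^ 2 : ℝ) : ℂ) * EE f z := by
    funext z
    unfold EE
    rw [map_mul]
    have : c * conj c = ((‖c‖ ^ 2 : ℝ) : ℂ) := by rw [Complex.mul_conj, Complex.normSq_eq_norm_sq]
    rw [← this]
    ring
  have h1 : iteratedDeriv (2 * n) (fun z => ((‖c‖ ^ 2 : ℝ) : ℂ) * EE f z) 0 =
      ((‖c‖ ^ 2 : ℝ) : ℂ) * iteratedDeriv (2 * n) (EE f) 0 := by
    have h2 : ContDiff ℂ (2 * n : ℕ) (EE f) := (EE_diff hf).contDiff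
    exact iteratedDeriv_const_mul _ h2.contDiffAt
  unfold LC
  rw [e, h1, Complex.re_ofReal_mul]
  ring

/-- the function with centre `1` -/
theorem LC_shift {X : ℂ → ℂ} (hX : Differentiable ℂ X) (k : ℂ) (t : ℝ) (n : ℕ) :
    LC (fun u => k * X (1 + t * Complex.I + u - 1 / 2)) n = ‖k‖ ^ 2 * LC (sh X t) n := by
  have e : (fun u : ℂ => k * X (1 + t * Complex.I + u - 1 / 2)) = fun u => k * sh X t u := by
    funext u
    unfold sh
    congr 2
    ring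
  rw [e]
  refine LC_const_mul ?_ k n
  exact hX.comp (by fun_prop : Differentiable ℂ fun u : ℂ => 1 / 2 + t * Complex.I + u)

/-- comparison of conductors, upper bound -/
lemma cnE_le (N q : ℕ) (y : ℝ) : cnE N q y ≤ (N : ℝ) * (q : ℝ) ^ 2 * (1 + |y|) ^ 2 * 4 := by
  unfold cnE acond
  simp only [List.map_cons, List.map_nil, List.prod_cons, List.prod_nil, mul_one]
  have h1 : ∀ a : ℝ, 0 ≤ a → ‖(y : ℂ) * Complex.I + (a : ℂ)‖ ≤ |y| + a := fun a ha => by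
    refine (norm_add_le _ _).trans ?_
    rw [norm_mul, Complex.norm_I, mul_one, Complex.norm_real, Complex.norm_real, Real.norm_eq_abs,
      Real.norm_eq_abs, abs_of_nonneg ha]
  have h2 := h1 (1 / 2) (by norm_num)
  have h3 := h1 (3 / 2) (by norm_num)
  have h4 := abs_nonneg y
  rw [mul_assoc ((N : ℝ) * (q : ℝ) ^ 2)]
  apply mul_le_mul_of_nonneg_left _ (by positivity)
  have h5 : 1 + ‖(y : ℂ) * Complex.I + (((1 / 2 : ℝ)) : ℂ)‖ ≤ 3 / 2 * (1 + |y|) := by linarith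
  have h6 : 1 + ‖(y : ℂ) * Complex.I + (((3 / 2 : ℝ)) : ℂ)‖ ≤ 5 / 2 * (1 + |y|) := by linarith
  calc (1 + ‖(y : ℂ) * Complex.I + (((1 / 2 : ℝ)) : ℂ)‖) * (1 + ‖(y : ℂ) * Complex.I + (((3 / 2 : ℝ)) : ℂ)‖)
      ≤ (3 / 2 * (1 + |y|)) * (5 / 2 * (1 + |y|)) := mul_le_mul h5 h6 (by positivity) (by positivity)
    _ ≤ (1 + |y|) ^ 2 * 4 := by nlinarith [sq_nonneg (1 + |y|)]

variable {M : ℕ} [NeZero M] (G : Subgroup (DirichletCharacter ℂ M)) [Fintype G]

lemma prod_cnE_le {N : ℕ} (hN : 0 < N) (y : ℝ) :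
    Real.log (∏ χ : G, cnE N (χ : DirichletCharacter ℂ M).conductor y) ≤
      Real.log (condA G N * (1 + |y|) ^ (2 * Fintype.card G)) + 2 * Fintype.card G := by
  have hN0 : (0 : ℝ) < N := by exact_mod_cast hN
  have hc : ∀ χ : G, (0 : ℝ) < ((χ : DirichletCharacter ℂ M).conductor : ℝ) := fun χ => by
    exact_mod_cast Nat.pos_of_ne_zero (DirichletCharacter.conductor_ne_zero _)
  have hy : 0 < 1 + |y| := by linarith [abs_nonneg y]
  have hpos : ∀ χ : G, 0 < (N : ℝ) * ((χ : DirichletCharacter ℂ M).conductor : ℝ) ^ 2 * (1 + |y|) ^ 2 :=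
    fun χ => by have := hc χ; positivity
  have hA : 0 < condA G N := Finset.prod_pos fun χ _ => by have := hc χ; positivity
  have e : condA G N * (1 + |y|) ^ (2 * Fintype.card G) =
      ∏ χ : G, ((N : ℝ) * ((χ : DirichletCharacter ℂ M).conductor : ℝ) ^ 2 * (1 + |y|) ^ 2) := by
    unfold condA
    rw [Finset.prod_mul_distrib (g := fun _ => (1 + |y|) ^ 2), Finset.prod_const, Finset.card_univ,
      ← pow_mul]
  have h1 : ∏ χ : G, cnE N (χ : DirichletCharacter ℂ M).conductor y ≤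
      (∏ χ : G, ((N : ℝ) * ((χ : DirichletCharacter ℂ M).conductor : ℝ) ^ 2 * (1 + |y|) ^ 2)) *
        4 ^ Fintype.card G := by
    rw [← Finset.card_univ, ← Finset.prod_const, ← Finset.prod_mul_distrib]
    exact Finset.prod_le_prod (fun χ _ => (hpos χ).le.trans (cnE_ge N _ y)) fun χ _ => cnE_le N _ y
  rw [← e] at h1
  have h2 : 0 < ∏ χ : G, cnE N (χ : DirichletCharacter ℂ M).conductor y :=
    Finset.prod_pos fun χ _ => lt_of_lt_of_le (hpos χ) (cnE_ge N _ y)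
  refine (Real.log_le_log h2 h1).trans ?_
  rw [Real.log_mul (by positivity) (by positivity), Real.log_pow]
  have h3 : Real.log 4 ≤ 2 := by
    have h4 : Real.log 4 = 2 * Real.log 2 := by
      rw [show (4 : ℝ) = 2 ^ 2 by norm_num, Real.log_pow]
      norm_num
    have := Real.log_two_lt_d9
    rw [h4]
    linarith
  have h4 : (Fintype.card G : ℝ) * Real.log 4 ≤ 2 * Fintype.card G := by
    have : (0 : ℝ) ≤ Fintype.card G := by positivity
    nlinarith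
  linarith

/-- the data for `E/K` -/
theorem ab_data {N : ℕ} [NeZero N] {f : CuspForm (Gamma0 N : Subgroup (GL (Fin 2) ℝ)) 2} {w : ℝ}
    (hf : IsForm N f w) (hco : Nat.Coprime M N) :
    ∃ X : ℂ → ℂ, Pk (2 * Fintype.card G) (condA G N)
      (fun y => ∏ χ : G, cnE N (χ : DirichletCharacter ℂ M).conductor y)
      (fun s => kap G N * prodE G f (s + 1 / 2)) X ∧
    Differentiable ℂ (fun s => (kap G N)⁻¹ * X (s - 1 / 2)) ∧
    (∃ σ : ℝ, ∀ s : ℂ, σ ≤ s.re → (kap G N)⁻¹ * X (s - 1 / 2) = prodE G f s) ∧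
    (∀ (n : ℕ) (t : ℝ), LC (fun u => (kap G N)⁻¹ * X (1 + t * Complex.I + u - 1 / 2)) n =
      ‖(kap G N)⁻¹‖ ^ 2 * LC (sh X t) n) ∧ 0 < ‖(kap G N)⁻¹‖ ^ 2 := by
  obtain ⟨X, hpk⟩ := pk_ab G hf hco
  have hdiff := hpk.diff
  have hNpos : 0 < N := Nat.pos_of_ne_zero (NeZero.ne N)
  have hκ := kap_ne G hNpos
  refine ⟨X, hpk, ?_, ?_, fun n t => LC_shift hdiff _ t n, ?_⟩
  · exact (hdiff.comp (by fun_prop : Differentiable ℂ fun s : ℂ => s - 1 / 2)).const_mul _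
  · obtain ⟨μ, L, u, ec, σ, hσ⟩ := hpk
    refine ⟨σ + 1 / 2, fun s hs => ?_⟩
    have hre : (s - 1 / 2).re = s.re - 1 / 2 := by simp
    rw [hσ (s - 1 / 2) (by rw [hre]; linarith)]
    show (kap G N)⁻¹ * (kap G N * prodE G f (s - 1 / 2 + 1 / 2)) = prodE G f s
    rw [sub_add_cancel, inv_mul_cancel_left₀ hκ]
  · have := norm_pos_iff.2 (inv_ne_zero hκ)
    positivity

lemma zero_iff {X : ℂ → ℂ} {k : ℂ} (hk : k ≠ 0) :
    (∀ s : ℂ, k * X (s - 1 / 2) = 0 → s.re = 1) ↔ ∀ s : ℂ, X s = 0 → s.re = 1 / 2 := by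
  constructor
  · intro h s hs
    have h1 := h (s + 1 / 2) (by rw [add_sub_cancel_right, hs, mul_zero])
    have e : (s + 1 / 2 : ℂ).re = s.re + 1 / 2 := by simp
    rw [e] at h1
    linarith
  · intro h s hs
    have h1 := h (s - 1 / 2) ((mul_eq_zero.1 hs).resolve_left hk)
    have e : (s - 1 / 2 : ℂ).re = s.re - 1 / 2 := by simp
    rw [e] at h1
    linarith

/-- **Elliptic curves over abelian fields.** -/
theorem ab_lag {η : ℝ} (hη : 0 < η) : ∃ C : ℝ, 0 < C ∧ ∀ (N : ℕ) [NeZero N]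
    (f : CuspForm (Gamma0 N : Subgroup (GL (Fin 2) ℝ)) 2) (w : ℝ), IsForm N f w →
    ∀ (M : ℕ) [NeZero M] (G : Subgroup (DirichletCharacter ℂ M)) [Fintype G], Nat.Coprime M N →
    ∃ Λ : ℂ → ℂ, Differentiable ℂ Λ ∧ (∃ σ : ℝ, ∀ s : ℂ, σ ≤ s.re → Λ s = prodE G f s) ∧
    (∀ (n : ℕ) (t : ℝ), (1 / 4 + η) * Real.log (condA G N * (1 + |t|) ^ (2 * Fintype.card G)) +
      C * Fintype.card G ≤ n → 0 < LC (fun u => Λ (1 + t * Complex.I + u)) n) ∧
    ((∀ s : ℂ, Λ s = 0 → s.re = 1) ↔ ∀ (n : ℕ) (t : ℝ),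
      (n : ℝ) < (1 / 4 + η) * Real.log (condA G N * (1 + |t|) ^ (2 * Fintype.card G)) +
      C * Fintype.card G → 0 ≤ LC (fun u => Λ (1 + t * Complex.I + u)) n) := by
  obtain ⟨C₀, hC₀, H⟩ := fin_lag hη
  refine ⟨2 * C₀ + (1 / 4 + η) * 2, by positivity, ?_⟩
  intro N _ f w hf M _ G _ hco
  obtain ⟨X, hpk, hd, hσ, hL, hk⟩ := ab_data G hf hco
  obtain ⟨h1, h2⟩ := H _ _ _ _ _ hpk
  have hNpos : 0 < N := Nat.pos_of_ne_zero (NeZero.ne N)
  have hκ := kap_ne G hNpos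
  have key : ∀ (n : ℕ) (t : ℝ), (1 / 4 + η) * Real.log (condA G N * (1 + |t|) ^ (2 * Fintype.card G)) +
      (2 * C₀ + (1 / 4 + η) * 2) * Fintype.card G ≤ n →
      0 < LC (fun u => (kap G N)⁻¹ * X (1 + t * Complex.I + u - 1 / 2)) n := by
    intro n t hn
    rw [hL]
    refine mul_pos hk (h1 n t (le_trans ?_ hn))
    have h3 := prod_cnE_le G hNpos t
    have h4 : 0 ≤ 1 / 4 + η := by positivity
    have h5 := mul_le_mul_of_nonneg_left h3 h4
    push_cast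
    linarith
  refine ⟨fun s => (kap G N)⁻¹ * X (s - 1 / 2), hd, hσ, key, ?_⟩
  rw [zero_iff (inv_ne_zero hκ), h2]
  constructor
  · intro h n t _
    have : 0 ≤ LC (sh X t) n := by
      rcases lt_or_ge (n : ℝ) ((1 / 4 + η) *
        Real.log (∏ χ : G, cnE N (χ : DirichletCharacter ℂ M).conductor t) +
        C₀ * ((2 * Fintype.card G : ℕ) : ℝ)) with h3 | h3
      · exact h n t h3
      · exact (h1 n t h3).le
    show 0 ≤ LC (fun u => (kap G N)⁻¹ * X (1 + t * Complex.I + u - 1 / 2)) n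
    rw [hL]
    positivity
  · intro h n t _
    have h3 : 0 ≤ LC (fun u => (kap G N)⁻¹ * X (1 + t * Complex.I + u - 1 / 2)) n := by
      rcases lt_or_ge (n : ℝ) ((1 / 4 + η) *
        Real.log (condA G N * (1 + |t|) ^ (2 * Fintype.card G)) +
        (2 * C₀ + (1 / 4 + η) * 2) * Fintype.card G) with h3 | h3
      · exact h n t h3
      · exact (key n t h3).le
    rw [hL] at h3
    by_contra h4
    have := mul_neg_of_pos_of_neg hk (not_le.1 h4)
    linarith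

/-- **Elliptic curves over abelian fields, with a zero-free half-plane.** -/
theorem ab_zf {η ϑ : ℝ} (hη : 0 < η) (hϑ : 0 ≤ ϑ) (hϑ1 : ϑ ≤ 1 / 2) (d : ℕ) :
    ∃ C : ℝ, ∀ (N : ℕ) [NeZero N]
    (f : CuspForm (Gamma0 N : Subgroup (GL (Fin 2) ℝ)) 2) (w : ℝ), IsForm N f w →
    ∀ (M : ℕ) [NeZero M] (G : Subgroup (DirichletCharacter ℂ M)) [Fintype G], Nat.Coprime M N →
    Fintype.card G = d → ∀ Λ : ℂ → ℂ, Differentiable ℂ Λ →
    (∃ σ : ℝ, ∀ s : ℂ, σ ≤ s.re → Λ s = prodE G f s) → (∀ s : ℂ, Λ s = 0 → s.re ≤ 1 + ϑ) →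
    ∀ (n : ℕ) (t : ℝ), (ϑ / 2 + η) * Real.log (condA G N * (1 + |t|) ^ (2 * d)) +
      C ≤ n → 0 < LC (fun u => Λ (1 + t * Complex.I + u)) n := by
  obtain ⟨C₁, H⟩ := fin_zf hη hϑ hϑ1 (2 * d)
  refine ⟨C₁ + (ϑ / 2 + η) * (2 * d), ?_⟩
  intro N _ f w hf M _ G _ hco hcard Λ hΛ hσ' hz n t hn
  obtain ⟨X, hpk, hd, hσ, hL, hk⟩ := ab_data G hf hco
  have hNpos : 0 < N := Nat.pos_of_ne_zero (NeZero.ne N)
  have hκ := kap_ne G hNpos
  have hΛe : Λ = fun s => (kap G N)⁻¹ * X (s - 1 / 2) := Pk.uniq hd hΛ hσ hσ'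
  rw [hΛe]
  show 0 < LC (fun u => (kap G N)⁻¹ * X (1 + t * Complex.I + u - 1 / 2)) n
  rw [hL]
  rw [hcard] at hpk
  refine mul_pos hk (H _ _ _ _ hpk (fun s hs => ?_) n t (le_trans ?_ hn))
  · have h1 := hz (s + 1 / 2) (by rw [hΛe]; simp only [add_sub_cancel_right, hs, mul_zero])
    have e : (s + 1 / 2 : ℂ).re = s.re + 1 / 2 := by simp
    rw [e] at h1
    linarith
  · have h3 := prod_cnE_le G hNpos t
    rw [hcard] at h3
    have h4 : 0 ≤ ϑ / 2 + η := by positivity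
    have h5 := mul_le_mul_of_nonneg_left h3 h4
    linarith

end Pool.Agent.TH803.LU
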