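import Pool.Agent.TH803.LU.EC

/-!
# Elliptic curves over `ℚ` and their twists
-/

set_option autoImplicit false

open Complex Filter Topology Set UpperHalfPlane MatrixGroups CongruenceSubgroup
open scoped ComplexConjugate

namespace Pool.Agent.TH803.LU

open Pool.Agent.W355.UN Pool.Agent.W355.LJ
open Pool.Agent.W169.HF (IsForm coef)

lemma log_cnE_le {N q : ℕ} (hN : 0 < N) (hq : 0 < q) (y : ℝ) :
    Real.log (cnE N q y) ≤ Real.log ((N : ℝ) * (q : ℝ) ^ 2 * (1 + |y|) ^ 2) + 2 := by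
  have hN0 : (0 : ℝ) < N := by exact_mod_cast hN
  have hq0 : (0 : ℝ) < q := by exact_mod_cast hq
  have hy : 0 < 1 + |y| := by linarith [abs_nonneg y]
  have hpos : 0 < (N : ℝ) * (q : ℝ) ^ 2 * (1 + |y|) ^ 2 := by positivity
  refine (Real.log_le_log (lt_of_lt_of_le hpos (cnE_ge N q y)) (cnE_le N q y)).trans ?_
  rw [Real.log_mul (by positivity) (by norm_num)]
  have h4 : Real.log 4 = 2 * Real.log 2 := by
    rw [show (4 : ℝ) = 2 ^ 2 by norm_num, Real.log_pow]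
    norm_num
  have := Real.log_two_lt_d9
  rw [h4]
  linarith

/-- the data for a twist -/
theorem tw_data {N : ℕ} [NeZero N] {f : CuspForm (Gamma0 N : Subgroup (GL (Fin 2) ℝ)) 2} {w : ℝ}
    (hf : IsForm N f w) {q : ℕ} [NeZero q] (χ : DirichletCharacter ℂ q) (hχ : χ.IsPrimitive)
    (hco : Nat.Coprime q N) :
    ∃ (X : ℂ → ℂ) (k : ℂ), k ≠ 0 ∧ Pk 2 ((N : ℝ) * (q : ℝ) ^ 2) (cnE N q)
      (fun s => k⁻¹ * facE f χ (s + 1 / 2)) X ∧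
    Differentiable ℂ (fun s => k * X (s - 1 / 2)) ∧
    (∃ σ : ℝ, ∀ s : ℂ, σ ≤ s.re → k * X (s - 1 / 2) = facE f χ s) := by
  obtain ⟨c, X, h⟩ := tw_raw f (eu2_of hf) (isNewf_of hf) χ hχ hco
  have hNpos : 0 < N := Nat.pos_of_ne_zero (NeZero.ne N)
  have hqpos : 0 < q := Nat.pos_of_ne_zero (NeZero.ne q)
  have hN0 : (0 : ℝ) < N := by exact_mod_cast hNpos
  have hq0 : (0 : ℝ) < q := by exact_mod_cast hqpos
  have hR : 0 < Real.sqrt N * q := by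
    have := Real.sqrt_pos.2 hN0
    positivity
  obtain ⟨k0, hk0⟩ : ∃ k0 : ℂ, k0 = 2 * ((Real.sqrt N * q : ℝ) : ℂ) ^ (-(1 / 2) : ℂ) := ⟨_, rfl⟩
  have hk : k0 ≠ 0 := by
    rw [hk0]
    refine mul_ne_zero two_ne_zero ?_
    rw [Ne, Complex.cpow_eq_zero_iff]
    exact fun h => hR.ne' (by exact_mod_cast h.1)
  have hpk : Pk 2 ((N : ℝ) * (q : ℝ) ^ 2) (cnE N q) (fun s => k0 * facE f χ (s + 1 / 2)) X :=
    (pk_raw h).congr (fun y => rfl) ⟨2, fun s hs => by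
      rw [hk0]
      exact fac_eq (eu2_of hf) hqpos _ (by linarith)⟩
  refine ⟨X, k0⁻¹, inv_ne_zero hk, ?_, ?_, ?_⟩
  · rw [inv_inv]
    exact hpk
  · exact (hpk.diff.comp (by fun_prop : Differentiable ℂ fun s : ℂ => s - 1 / 2)).const_mul _
  · obtain ⟨μ, L, u, ec, σ, hσ⟩ := hpk
    refine ⟨σ + 1 / 2, fun s hs => ?_⟩
    have hre : (s - 1 / 2).re = s.re - 1 / 2 := by simp
    rw [hσ (s - 1 / 2) (by rw [hre]; linarith)]
    show k0⁻¹ * (k0 * facE f χ (s - 1 / 2 + 1 / 2)) = facE f χ s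
    rw [sub_add_cancel, inv_mul_cancel_left₀ hk]

/-- **Elliptic curves over `ℚ` and their twists.** -/
theorem ec_lag {η : ℝ} (hη : 0 < η) : ∃ C : ℝ, 0 < C ∧ ∀ (N : ℕ) [NeZero N]
    (f : CuspForm (Gamma0 N : Subgroup (GL (Fin 2) ℝ)) 2) (w : ℝ), IsForm N f w →
    ∀ (q : ℕ) [NeZero q] (χ : DirichletCharacter ℂ q), χ.IsPrimitive → Nat.Coprime q N →
    ∃ Λ : ℂ → ℂ, Differentiable ℂ Λ ∧ (∃ σ : ℝ, ∀ s : ℂ, σ ≤ s.re → Λ s = facE f χ s) ∧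
    (∀ (n : ℕ) (t : ℝ), (1 / 4 + η) * Real.log ((N : ℝ) * (q : ℝ) ^ 2 * (1 + |t|) ^ 2) + C ≤ n →
      0 < LC (fun u => Λ (1 + t * Complex.I + u)) n) ∧
    ((∀ s : ℂ, Λ s = 0 → s.re = 1) ↔ ∀ (n : ℕ) (t : ℝ),
      (n : ℝ) < (1 / 4 + η) * Real.log ((N : ℝ) * (q : ℝ) ^ 2 * (1 + |t|) ^ 2) + C →
      0 ≤ LC (fun u => Λ (1 + t * Complex.I + u)) n) := by
  obtain ⟨C₀, hC₀, H⟩ := fin_lag hη
  refine ⟨2 * C₀ + (1 / 4 + η) * 2, by positivity, ?_⟩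
  intro N _ f w hf q _ χ hχ hco
  obtain ⟨X, k, hk, hpk, hd, hσ⟩ := tw_data hf χ hχ hco
  obtain ⟨h1, h2⟩ := H _ _ _ _ _ hpk
  have hNpos : 0 < N := Nat.pos_of_ne_zero (NeZero.ne N)
  have hqpos : 0 < q := Nat.pos_of_ne_zero (NeZero.ne q)
  have hkn : 0 < ‖k‖ ^ 2 := by
    have := norm_pos_iff.2 hk
    positivity
  have hL : ∀ (n : ℕ) (t : ℝ), LC (fun u => k * X (1 + t * Complex.I + u - 1 / 2)) n =
      ‖k‖ ^ 2 * LC (sh X t) n := fun n t => LC_shift hpk.diff k t n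
  have key : ∀ (n : ℕ) (t : ℝ), (1 / 4 + η) * Real.log ((N : ℝ) * (q : ℝ) ^ 2 * (1 + |t|) ^ 2) +
      (2 * C₀ + (1 / 4 + η) * 2) ≤ n →
      0 < LC (fun u => k * X (1 + t * Complex.I + u - 1 / 2)) n := by
    intro n t hn
    rw [hL]
    refine mul_pos hkn (h1 n t (le_trans ?_ hn))
    have h3 := log_cnE_le hNpos hqpos t
    have h4 : 0 ≤ 1 / 4 + η := by positivity
    have h5 := mul_le_mul_of_nonneg_left h3 h4
    push_cast
    linarith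
  refine ⟨fun s => k * X (s - 1 / 2), hd, hσ, key, ?_⟩
  rw [zero_iff hk, h2]
  constructor
  · intro h n t _
    have : 0 ≤ LC (sh X t) n := by
      rcases lt_or_ge (n : ℝ) ((1 / 4 + η) * Real.log (cnE N q t) + C₀ * ((2 : ℕ) : ℝ)) with h3 | h3
      · exact h n t h3
      · exact (h1 n t h3).le
    show 0 ≤ LC (fun u => k * X (1 + t * Complex.I + u - 1 / 2)) n
    rw [hL]
    positivity
  · intro h n t _
    have h3 : 0 ≤ LC (fun u => k * X (1 + t * Complex.I + u - 1 / 2)) n := by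
      rcases lt_or_ge (n : ℝ) ((1 / 4 + η) *
        Real.log ((N : ℝ) * (q : ℝ) ^ 2 * (1 + |t|) ^ 2) + (2 * C₀ + (1 / 4 + η) * 2)) with h3 | h3
      · exact h n t h3
      · exact (key n t h3).le
    rw [hL] at h3
    by_contra h4
    have := mul_neg_of_pos_of_neg hkn (not_le.1 h4)
    linarith

/-- **Twists with a zero-free half-plane.** -/
theorem ec_zf {η ϑ : ℝ} (hη : 0 < η) (hϑ : 0 ≤ ϑ) (hϑ1 : ϑ ≤ 1 / 2) :
    ∃ C : ℝ, ∀ (N : ℕ) [NeZero N]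
    (f : CuspForm (Gamma0 N : Subgroup (GL (Fin 2) ℝ)) 2) (w : ℝ), IsForm N f w →
    ∀ (q : ℕ) [NeZero q] (χ : DirichletCharacter ℂ q), χ.IsPrimitive → Nat.Coprime q N →
    ∀ Λ : ℂ → ℂ, Differentiable ℂ Λ → (∃ σ : ℝ, ∀ s : ℂ, σ ≤ s.re → Λ s = facE f χ s) →
    (∀ s : ℂ, Λ s = 0 → s.re ≤ 1 + ϑ) →
    ∀ (n : ℕ) (t : ℝ), (ϑ / 2 + η) * Real.log ((N : ℝ) * (q : ℝ) ^ 2 * (1 + |t|) ^ 2) +
      C ≤ n → 0 < LC (fun u => Λ (1 + t * Complex.I + u)) n := by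
  obtain ⟨C₁, H⟩ := fin_zf hη hϑ hϑ1 2
  refine ⟨C₁ + (ϑ / 2 + η) * 2, ?_⟩
  intro N _ f w hf q _ χ hχ hco Λ hΛ hσ' hz n t hn
  obtain ⟨X, k, hk, hpk, hd, hσ⟩ := tw_data hf χ hχ hco
  have hNpos : 0 < N := Nat.pos_of_ne_zero (NeZero.ne N)
  have hqpos : 0 < q := Nat.pos_of_ne_zero (NeZero.ne q)
  have hkn : 0 < ‖k‖ ^ 2 := by
    have := norm_pos_iff.2 hk
    positivity
  have hΛe : Λ = fun s => k * X (s - 1 / 2) := Pk.uniq hd hΛ hσ hσ'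
  rw [hΛe]
  show 0 < LC (fun u => k * X (1 + t * Complex.I + u - 1 / 2)) n
  rw [LC_shift hpk.diff k t n]
  refine mul_pos hkn (H _ _ _ _ hpk (fun s hs => ?_) n t (le_trans ?_ hn))
  · have h1 := hz (s + 1 / 2) (by rw [hΛe]; simp only [add_sub_cancel_right, hs, mul_zero])
    have e : (s + 1 / 2 : ℂ).re = s.re + 1 / 2 := by simp
    rw [e] at h1
    linarith
  · have h3 := log_cnE_le hNpos hqpos t
    have h4 : 0 ≤ ϑ / 2 + η := by positivity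
    have h5 := mul_le_mul_of_nonneg_left h3 h4
    linarith

end Pool.Agent.TH803.LU
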