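import Mathlib

/-!
# Even entire functions; the function `E(z) = f(z) conj f(conj z)`
-/

set_option autoImplicit false

namespace Pool.Agent.TH803.LU

open Complex Filter Topology
open scoped ComplexConjugate

theorem hcongr {ι M : Type*} [AddCommMonoid M] [TopologicalSpace M] {f g : ι → M} {a : M}
    (h : HasSum f a) (e : ∀ i, g i = f i) : HasSum g a := by
  have : g = f := funext e
  rwa [this]

/-- the function `g` with `g (z ^ 2) = h z` for even `h` -/
noncomputable def sqf (h : ℂ → ℂ) (x : ℂ) : ℂ :=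
  ∑' k : ℕ, iteratedDeriv (2 * k) h 0 / ((2 * k).factorial : ℂ) * x ^ k

theorem odd_zero' {h : ℂ → ℂ} (he : ∀ z, h (-z) = h z) (k : ℕ) :
    iteratedDeriv (2 * k + 1) h 0 = 0 := by
  have h1 := iteratedDeriv_comp_neg (2 * k + 1) h 0
  have e : (fun x => h (-x)) = h := by
    funext x
    exact he x
  rw [e, neg_zero, pow_succ, pow_mul] at h1
  simp at h1
  linear_combination (1 / 2 : ℂ) * h1

theorem hasSum_sq {h : ℂ → ℂ} (hd : Differentiable ℂ h) (he : ∀ z, h (-z) = h z) (z : ℂ) :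
    HasSum (fun k : ℕ => iteratedDeriv (2 * k) h 0 / ((2 * k).factorial : ℂ) * (z ^ 2) ^ k) (h z) := by
  have h1 := hasSum_taylorSeries_of_entire hd 0 z
  have hinj : Function.Injective (fun k : ℕ => 2 * k) := fun a b hab => by
    have : 2 * a = 2 * b := hab
    omega
  rw [← hinj.hasSum_iff] at h1
  · refine hcongr h1 fun k => ?_
    show _ = (((2 * k).factorial : ℂ))⁻¹ • (z - 0) ^ (2 * k) • iteratedDeriv (2 * k) h 0
    rw [smul_eq_mul, smul_eq_mul, sub_zero, pow_mul]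
    field_simp
  · intro x hx
    have hodd : ∃ k, x = 2 * k + 1 := by
      rcases Nat.even_or_odd' x with ⟨k, hk | hk⟩
      · exact absurd ⟨k, hk.symm⟩ hx
      · exact ⟨k, hk⟩
    obtain ⟨k, rfl⟩ := hodd
    rw [odd_zero' he, smul_zero, smul_zero]

theorem sqf_sq {h : ℂ → ℂ} (hd : Differentiable ℂ h) (he : ∀ z, h (-z) = h z) (z : ℂ) :
    sqf h (z ^ 2) = h z := (hasSum_sq hd he z).tsum_eq

theorem exists_sq (x : ℂ) : ∃ z : ℂ, z ^ 2 = x :=
  IsAlgClosed.exists_pow_nat_eq x (n := 2) (by norm_num)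

theorem hasSum_sqf {h : ℂ → ℂ} (hd : Differentiable ℂ h) (he : ∀ z, h (-z) = h z) (x : ℂ) :
    HasSum (fun k : ℕ => iteratedDeriv (2 * k) h 0 / ((2 * k).factorial : ℂ) * x ^ k) (sqf h x) := by
  obtain ⟨z, hz⟩ := exists_sq x
  rw [← hz, sqf_sq hd he]
  exact hasSum_sq hd he z

/-- the power series -/
noncomputable def ps (h : ℂ → ℂ) : FormalMultilinearSeries ℂ ℂ ℂ :=
  FormalMultilinearSeries.ofScalars ℂ
    (fun k : ℕ => iteratedDeriv (2 * k) h 0 / ((2 * k).factorial : ℂ))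

theorem ps_apply (h : ℂ → ℂ) (n : ℕ) (x : ℂ) :
    ps h n (fun _ => x) = iteratedDeriv (2 * n) h 0 / ((2 * n).factorial : ℂ) * x ^ n := by
  unfold ps
  rw [FormalMultilinearSeries.ofScalars_apply_eq, smul_eq_mul]

theorem ps_norm (h : ℂ → ℂ) (n : ℕ) :
    ‖ps h n‖ = ‖iteratedDeriv (2 * n) h 0 / ((2 * n).factorial : ℂ)‖ := by
  unfold ps
  exact FormalMultilinearSeries.ofScalars_norm (𝕜 := ℂ) (E := ℂ)
    (fun k : ℕ => iteratedDeriv (2 * k) h 0 / ((2 * k).factorial : ℂ)) n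

theorem ps_radius {h : ℂ → ℂ} (hd : Differentiable ℂ h) (he : ∀ z, h (-z) = h z) :
    (ps h).radius = ⊤ := by
  refine FormalMultilinearSeries.radius_eq_top_of_summable_norm _ fun r => ?_
  have h1 := (hasSum_sqf hd he ((r : ℝ) : ℂ)).summable.norm
  refine h1.congr fun n => ?_
  rw [ps_norm, norm_mul, norm_pow]
  simp

theorem hfps {h : ℂ → ℂ} (hd : Differentiable ℂ h) (he : ∀ z, h (-z) = h z) :
    HasFPowerSeriesOnBall (sqf h) (ps h) 0 ⊤ := by
  refine ⟨by rw [ps_radius hd he], by simp, ?_⟩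
  intro y _
  rw [zero_add]
  simp only [ps_apply]
  exact hasSum_sqf hd he y

theorem sqf_diff {h : ℂ → ℂ} (hd : Differentiable ℂ h) (he : ∀ z, h (-z) = h z) :
    Differentiable ℂ (sqf h) := by
  intro x
  exact (hfps hd he).differentiableOn.differentiableAt (by simp)

theorem sqf_iter {h : ℂ → ℂ} (hd : Differentiable ℂ h) (he : ∀ z, h (-z) = h z) (n : ℕ) :
    iteratedDeriv n (sqf h) 0 =
      (n.factorial : ℂ) * (iteratedDeriv (2 * n) h 0 / ((2 * n).factorial : ℂ)) := by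
  have h1 := (hfps hd he).factorial_smul 1 n
  rw [← iteratedDeriv_eq_iteratedFDeriv, ps_apply, one_pow, mul_one, nsmul_eq_mul] at h1
  exact h1.symm

theorem sqf_conj {h : ℂ → ℂ} (hd : Differentiable ℂ h) (he : ∀ z, h (-z) = h z)
    (hc : ∀ z, h (conj z) = conj (h z)) (x : ℂ) :
    sqf h (conj x) = conj (sqf h x) := by
  obtain ⟨z, hz⟩ := exists_sq x
  rw [← hz, map_pow, sqf_sq hd he, sqf_sq hd he, hc]

/-! ## The function `EE f` -/

/-- `E(z) = f(z) conj f(conj z)`, that is `|f(x)|²` for real `x` -/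
noncomputable def EE (f : ℂ → ℂ) (z : ℂ) : ℂ := f z * conj (f (conj z))

/-- the functional equation `f(z) = ε conj f(-conj z)` -/
def FE0 (f : ℂ → ℂ) : Prop := ∃ ε : ℂ, ‖ε‖ = 1 ∧ ∀ u : ℂ, f u = ε * conj (f (-conj u))

theorem cc_hasDeriv {f : ℂ → ℂ} {z d : ℂ} (h : HasDerivAt f d (conj z)) :
    HasDerivAt (fun z => conj (f (conj z))) (conj d) z := by
  have h1 := h.conj_conj
  rw [Complex.conj_conj] at h1
  exact h1

theorem EE_hasDeriv {f : ℂ → ℂ} (hf : Differentiable ℂ f) (z : ℂ) :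
    HasDerivAt (EE f) (deriv f z * conj (f (conj z)) + f z * conj (deriv f (conj z))) z :=
  (hf z).hasDerivAt.mul (cc_hasDeriv (hf (conj z)).hasDerivAt)

theorem EE_diff {f : ℂ → ℂ} (hf : Differentiable ℂ f) : Differentiable ℂ (EE f) :=
  fun z => (EE_hasDeriv hf z).differentiableAt

theorem EE_real (f : ℂ → ℂ) (x : ℝ) : EE f x = ((‖f x‖ ^ 2 : ℝ) : ℂ) := by
  unfold EE
  rw [Complex.conj_ofReal, Complex.mul_conj, Complex.normSq_eq_norm_sq]

theorem EE_conj (f : ℂ → ℂ) (z : ℂ) : EE f (conj z) = conj (EE f z) := by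
  unfold EE
  rw [Complex.conj_conj, map_mul, Complex.conj_conj, mul_comm]

theorem EE_norm (f : ℂ → ℂ) (z : ℂ) : ‖EE f z‖ = ‖f z‖ * ‖f (conj z)‖ := by
  unfold EE
  rw [norm_mul, Complex.norm_conj]

theorem EE_neg {f : ℂ → ℂ} (hfe : FE0 f) (z : ℂ) : EE f (-z) = EE f z := by
  obtain ⟨ε, hε, h⟩ := hfe
  have h1 := h z
  have h2 := h (conj z)
  rw [Complex.conj_conj] at h2
  unfold EE
  rw [h1, h2, map_neg, map_mul, Complex.conj_conj]
  have h3 : ε * conj ε = 1 := by
    rw [Complex.mul_conj, Complex.normSq_eq_norm_sq, hε]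
    norm_num
  linear_combination (-(conj (f (-conj z)) * f (-z))) * h3

/-- the Taylor coefficients of `x ↦ |f(x)|²` -/
noncomputable def LC (f : ℂ → ℂ) (n : ℕ) : ℝ := (iteratedDeriv (2 * n) (EE f) 0).re / ((2 * n).factorial : ℝ)

theorem re_iter {G : ℂ → ℂ} (hG : Differentiable ℂ G) (k : ℕ) : ∀ x : ℝ,
    iteratedDeriv k (fun y : ℝ => (G y).re) x = (iteratedDeriv k G x).re := by
  induction k with
  | zero => intro x; simp
  | succ k ih =>
    intro x
    rw [iteratedDeriv_succ, iteratedDeriv_succ]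
    have e : iteratedDeriv k (fun y : ℝ => (G y).re) = fun x : ℝ => (iteratedDeriv k G x).re := funext ih
    rw [e]
    have hd : Differentiable ℂ (iteratedDeriv k G) :=
      (hG.contDiff (n := ⊤)).differentiable_iteratedDeriv k (by exact_mod_cast WithTop.coe_lt_top _)
    exact (hd x).hasDerivAt.real_of_complex.deriv

/-- `LC` through the derivatives of the real function `|f|²` -/
theorem LC_eq {f : ℂ → ℂ} (hf : Differentiable ℂ f) (n : ℕ) :
    LC f n = iteratedDeriv (2 * n) (fun y : ℝ => ‖f y‖ ^ 2) 0 / ((2 * n).factorial : ℝ) := by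
  have e : (fun y : ℝ => ‖f y‖ ^ 2) = fun y : ℝ => (EE f y).re := by
    funext y
    rw [EE_real, Complex.ofReal_re]
  rw [e, re_iter (EE_diff hf)]
  unfold LC
  rw [Complex.ofReal_zero]

theorem iter_conj {G : ℂ → ℂ} (hG : Differentiable ℂ G) (hc : ∀ z, G (conj z) = conj (G z)) (k : ℕ) :
    ∀ z, iteratedDeriv k G (conj z) = conj (iteratedDeriv k G z) := by
  induction k with
  | zero => intro z; simpa using hc z
  | succ k ih =>
    intro z
    rw [iteratedDeriv_succ]
    have hd : Differentiable ℂ (iteratedDeriv k G) :=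
      (hG.contDiff (n := ⊤)).differentiable_iteratedDeriv k (by exact_mod_cast WithTop.coe_lt_top _)
    have h1 : HasDerivAt (fun w => conj (iteratedDeriv k G (conj w)))
        (conj (deriv (iteratedDeriv k G) (conj z))) z := cc_hasDeriv (hd (conj z)).hasDerivAt
    have e : (fun w => conj (iteratedDeriv k G (conj w))) = iteratedDeriv k G := by
      funext w
      rw [ih, Complex.conj_conj]
    rw [e] at h1
    rw [h1.deriv, Complex.conj_conj]

/-- the power series of `|f|²` -/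
theorem hasSum_LC {f : ℂ → ℂ} (hf : Differentiable ℂ f) (hfe : FE0 f) (y : ℝ) :
    HasSum (fun n : ℕ => LC f n * y ^ (2 * n)) (‖f y‖ ^ 2) := by
  have h1 := hasSum_sq (EE_diff hf) (EE_neg hfe) (y : ℂ)
  rw [EE_real] at h1
  have h2 := Complex.hasSum_re h1
  rw [Complex.ofReal_re] at h2
  refine hcongr h2 fun n => ?_
  have e : iteratedDeriv (2 * n) (EE f) 0 / ((2 * n).factorial : ℂ) * ((y : ℂ) ^ 2) ^ n =
      ((y ^ (2 * n) / ((2 * n).factorial : ℝ) : ℝ) : ℂ) * iteratedDeriv (2 * n) (EE f) 0 := by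
    push_cast
    rw [← pow_mul]
    ring
  rw [e, Complex.re_ofReal_mul]
  unfold LC
  ring

theorem LC_nonneg_iff (f : ℂ → ℂ) (n : ℕ) : 0 ≤ LC f n ↔ 0 ≤ (iteratedDeriv (2 * n) (EE f) 0).re := by
  have h : (0 : ℝ) < ((2 * n).factorial : ℝ) := by exact_mod_cast (2 * n).factorial_pos
  unfold LC
  constructor
  · intro h1
    by_contra h2
    have := div_neg_of_neg_of_pos (not_le.1 h2) h
    linarith
  · intro h1
    positivity

end Pool.Agent.TH803.LU
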