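import Pool.Agent.TH803.LU.Cen
import Pool.Agent.TH803.LU.Sq
import Pool.Agent.W355.UN.Fwd

/-!
# Positivity of the Taylor coefficients of `|f|²` for profiles
-/

set_option autoImplicit false

namespace Pool.Agent.TH803.LU

open Complex Filter Topology Set Metric
open scoped ComplexConjugate
open Pool.Agent.W169.HF Pool.Agent.W355.UN
open H353.E H353.F

/-- derivative of the logarithmic derivative -/
theorem logDeriv_der {f : ℂ → ℂ} (hf : Differentiable ℂ f) {ϑ0 K ℓ Q r : ℝ} {v : ℂ} (hr : 0 < r)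
    (hne : ∀ z : ℂ, ϑ0 ≤ z.re → ‖z - v‖ ≤ r → f z ≠ 0)
    (hb : ∀ z : ℂ, ϑ0 ≤ z.re → ‖z - v‖ ≤ r → ‖logDeriv f z - ℓ‖ ≤ K * Q) (hv : ϑ0 + 2 * r ≤ v.re) :
    ∃ d : ℂ, HasDerivAt (logDeriv f) d v ∧ ‖d‖ ≤ K * Q / r := by
  have hre : ∀ z ∈ closedBall v r, ϑ0 + r ≤ z.re := fun z hz => by
    rw [mem_closedBall, dist_eq_norm] at hz
    have h1 := (abs_le.1 ((Complex.abs_re_le_norm _).trans hz)).1
    rw [sub_re] at h1
    linarith
  have hd : ∀ z : ℂ, ϑ0 ≤ z.re → ‖z - v‖ ≤ r → DifferentiableAt ℂ (logDeriv f) z := fun z hz hz2 => by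
    have : logDeriv f = fun z => deriv f z / f z := by
      funext z
      rw [logDeriv_apply]
    rw [this]
    exact (hf.deriv z).div (hf z) (hne z hz hz2)
  have h0 : DifferentiableAt ℂ (logDeriv f) v := hd v (by linarith) (by simpa using hr.le)
  refine ⟨deriv (logDeriv f) v, h0.hasDerivAt, ?_⟩
  have hdc : DiffContOnCl ℂ (fun z => logDeriv f z - ℓ) (ball v r) := by
    apply DifferentiableOn.diffContOnCl
    rw [closure_ball v hr.ne']
    intro z hz
    refine ((hd z (by linarith [hre z hz]) ?_).sub_const _).differentiableWithinAt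
    rwa [mem_closedBall, dist_eq_norm] at hz
  have h1 := norm_deriv_le_of_forall_mem_sphere_norm_le (C := K * Q) hr hdc (fun z hz => by
    have hz' : z ∈ closedBall v r := sphere_subset_closedBall hz
    refine hb z (by linarith [hre z hz']) ?_
    rw [mem_sphere, dist_eq_norm] at hz
    exact hz.le)
  have h2 : deriv (fun z => logDeriv f z - ℓ) v = deriv (logDeriv f) v := deriv_sub_const _
  rwa [h2] at h1

theorem scale0 {E : ℂ → ℂ} (hE : Differentiable ℂ E) (r : ℝ) (k : ℕ) :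
    iteratedDeriv k (fun s : ℂ => E (r * (s - 1 / 2))) (1 / 2) = (r : ℂ) ^ k * iteratedDeriv k E 0 := by
  have e : (fun s : ℂ => E (r * (s - 1 / 2))) = fun s : ℂ => (fun z : ℂ => E (r * z)) (s + (-(1 / 2))) := by
    funext s
    simp only [sub_eq_add_neg]
  rw [e]
  have h1 := congrFun (iteratedDeriv_comp_add_const k (fun z : ℂ => E (r * z)) (-(1 / 2))) (1 / 2)
  rw [h1, iteratedDeriv_comp_const_mul hE.contDiff (r : ℂ)]
  simp

/-- **Positivity for profiles.** -/
theorem prof_pos {ϑ0 g X : ℝ} (hϑ0 : 0 ≤ ϑ0) (hg : 0 < g) (hX : 1 ≤ X) :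
    ∃ κ0 R0 ℓ0 : ℝ, 0 < κ0 ∧ 1 ≤ R0 ∧ 1 ≤ ℓ0 ∧ ∀ (ℓ G : ℝ) (f : ℂ → ℂ) (n : ℕ), ℓ0 ≤ ℓ → 0 < G →
      Differentiable ℂ f → FE0 f → Pf κ0 ϑ0 R0 ℓ G f → (ϑ0 + g) * ℓ ≤ n → (n : ℝ) ≤ X * ℓ →
      0 < LC f n := by
  have hX0 : 0 < X := by linarith
  obtain ⟨δ, hδd⟩ : ∃ δ : ℝ, δ = min (1 / 2) (g / (2 * (ϑ0 + g))) := ⟨_, rfl⟩
  have hδ : 0 < δ := by rw [hδd]; exact lt_min (by norm_num) (by positivity)
  have hδ' : δ ≤ 1 / 2 := by rw [hδd]; exact min_le_left _ _
  have hδ2 : δ * (ϑ0 + g) ≤ g / 2 := by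
    have : δ ≤ g / (2 * (ϑ0 + g)) := by rw [hδd]; exact min_le_right _ _
    rw [le_div_iff₀ (by positivity)] at this
    linarith
  obtain ⟨κ, hκd⟩ : ∃ κ : ℝ, κ = δ / 1000000 := ⟨_, rfl⟩
  have hκ : 0 < κ := by rw [hκd]; positivity
  obtain ⟨R, hRd⟩ : ∃ R : ℝ, R = 3 * X + g := ⟨_, rfl⟩
  obtain ⟨κ0, hκ0d⟩ : ∃ κ0 : ℝ, κ0 = min (κ * g / X) (κ * g * g / (4 * X ^ 2)) := ⟨_, rfl⟩
  have hκ0 : 0 < κ0 := by rw [hκ0d]; exact lt_min (by positivity) (by positivity)
  have hκ0a : κ0 * X ≤ κ * g := by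
    have : κ0 ≤ κ * g / X := by rw [hκ0d]; exact min_le_left _ _
    rwa [le_div_iff₀ (by positivity)] at this
  have hκ0b : κ0 * (4 * X ^ 2) ≤ κ * g * g := by
    have : κ0 ≤ κ * g * g / (4 * X ^ 2) := by rw [hκ0d]; exact min_le_right _ _
    rwa [le_div_iff₀ (by positivity)] at this
  refine ⟨κ0, R, max 1 (max (1000000000000 / g) (10000 / δ ^ 2 / g)), hκ0, by rw [hRd]; linarith,
    le_max_left _ _, ?_⟩
  intro ℓ G f n hℓ hG hd hfe hU hn1 hn2
  have hℓ1 : 1 ≤ ℓ := (le_max_left _ _).trans hℓ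
  have hℓ2 : 1000000000000 ≤ g * ℓ := by
    have := ((le_max_left _ _).trans (le_max_right _ _)).trans hℓ
    rw [div_le_iff₀ hg] at this
    linarith
  have hℓ3 : 10000 / δ ^ 2 ≤ g * ℓ := by
    have := ((le_max_right _ _).trans (le_max_right _ _)).trans hℓ
    rw [div_le_iff₀ hg] at this
    linarith
  have hℓ0 : 0 < ℓ := by linarith
  have hgn : g * ℓ ≤ n := by nlinarith
  have hn0 : (0 : ℝ) < n := by nlinarith
  obtain ⟨r, hr⟩ : ∃ r : ℝ, r = n / ℓ := ⟨_, rfl⟩
  have hrℓ : r * ℓ = n := by rw [hr]; field_simp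
  have hr1 : ϑ0 + g ≤ r := by rw [hr, le_div_iff₀ hℓ0]; exact hn1
  have hr2 : r ≤ X := by rw [hr, div_le_iff₀ hℓ0]; exact hn2
  have hr0 : 0 < r := by linarith
  have hreg : ϑ0 + g / 2 ≤ r * (1 - δ) := by
    have h1 : (ϑ0 + g) * (1 - δ) ≤ r * (1 - δ) := by
      have : 0 ≤ 1 - δ := by linarith
      gcongr
    nlinarith
  -- norms
  have hnorm : ∀ u : ℂ, |u.re| ≤ 2 → |u.im| ≤ 2 → ‖(r : ℂ) * u‖ ≤ 3 * X := by
    intro u h1 h2
    rw [norm_mul, Complex.norm_real, Real.norm_eq_abs, abs_of_pos hr0]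
    have h3 : ‖u‖ ≤ 3 := by
      have h4 : ‖u‖ ^ 2 ≤ 3 ^ 2 := by
        rw [Complex.sq_norm, Complex.normSq_apply]
        have h4 : u.re ^ 2 ≤ 2 ^ 2 := sq_le_sq' (abs_le.1 h1).1 (abs_le.1 h1).2
        have h5 : u.im ^ 2 ≤ 2 ^ 2 := sq_le_sq' (abs_le.1 h2).1 (abs_le.1 h2).2
        nlinarith
      exact le_of_sq_le_sq h4 (by norm_num)
    calc r * ‖u‖ ≤ X * 3 := by gcongr
      _ = 3 * X := by ring
  have hin : ∀ z : ℂ, ‖z‖ ≤ 3 * X + g → |z.re| ≤ R ∧ z.re ≤ R ∧ |z.im| ≤ R := fun z hz => by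
    rw [← hRd] at hz
    have h1 := (Complex.abs_re_le_norm z).trans hz
    exact ⟨h1, (le_abs_self _).trans h1, (Complex.abs_im_le_norm z).trans hz⟩
  have hne : ∀ z : ℂ, ϑ0 ≤ z.re → ‖z‖ ≤ 3 * X + g → f z ≠ 0 := fun z hz hz2 h0 => by
    obtain ⟨-, h2, h3⟩ := hin z hz2
    have h1 := hU.low z hz h2 h3
    rw [h0, norm_zero] at h1
    have := mul_pos hG (Real.exp_pos (ℓ * z.re - κ0 * ℓ))
    linarith
  have hκℓ : κ0 * ℓ * X ≤ κ * n := by
    calc κ0 * ℓ * X = κ0 * X * ℓ := by ring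
      _ ≤ κ * g * ℓ := by gcongr
      _ = κ * (g * ℓ) := by ring
      _ ≤ κ * n := by gcongr
  have hκℓ1 : κ0 * ℓ ≤ κ * n := by
    have : 0 ≤ κ0 * ℓ := by positivity
    nlinarith
  -- the data
  obtain ⟨Ψ, hΨf⟩ : ∃ Ψ : ℂ → ℂ, Ψ = fun s : ℂ => EE f (r * (s - 1 / 2)) := ⟨_, rfl⟩
  have hΨe : ∀ s : ℂ, Ψ s = EE f (r * (s - 1 / 2)) := fun s => by rw [hΨf]
  obtain ⟨P, hP⟩ : ∃ P : ℂ → ℂ, P = fun u : ℂ => (r : ℂ) * (logDeriv f (r * u) +
    conj (logDeriv f (conj (r * u)))) := ⟨_, rfl⟩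
  have hPe : ∀ u : ℂ, P u = (r : ℂ) * (logDeriv f (r * u) + conj (logDeriv f (conj (r * u)))) :=
    fun u => by rw [hP]
  have hcc : ∀ u : ℂ, cc 0 + u - 1 / 2 = u := fun u => by unfold cc; simp
  have hreu : ∀ u : ℂ, ((r : ℂ) * u).re = r * u.re := fun u => Complex.re_ofReal_mul _ _
  have hregu : ∀ u : ℂ, 1 - δ ≤ u.re → ϑ0 + g / 2 ≤ ((r : ℂ) * u).re := fun u hu => by
    rw [hreu]
    calc ϑ0 + g / 2 ≤ r * (1 - δ) := hreg
      _ ≤ r * u.re := by gcongr
  have hconjn : ∀ u : ℂ, ‖conj ((r : ℂ) * u)‖ = ‖(r : ℂ) * u‖ := fun u => Complex.norm_conj _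
  have hfeΨ : ∀ s : ℂ, Ψ s = conj (Ψ (1 - conj s)) := fun s => by
    rw [hΨe, hΨe, ← EE_conj]
    have e : conj ((r : ℂ) * (1 - conj s - 1 / 2)) = -((r : ℂ) * (s - 1 / 2)) := by
      rw [map_mul, Complex.conj_ofReal, map_sub, map_sub, Complex.conj_conj, map_one, map_div₀, map_one,
        map_ofNat]
      ring
    rw [e, EE_neg hfe]
  have hloc : Loc Ψ P (2 * n) δ κ (G ^ 2) 0 0 := by
    refine ⟨?_, ⟨1, norm_one, fun s => ?_⟩, fun u h1 h2 h3 => ?_, fun u h1 h2 h3 => ?_,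
      fun u h1 h2 h3 => ?_, fun u h1 h2 => ?_, fun x h1 h2 => ?_, by positivity, hδ, hδ',
      hκ.le, by rw [hκd], le_rfl, ?_, ?_⟩
    · rw [hΨf]
      exact (EE_diff hd).comp (by fun_prop)
    · rw [one_mul]
      exact hfeΨ s
    · -- derivative
      have hv := hregu u h1
      have hu : |u.re| ≤ 2 := abs_le.2 ⟨by linarith, by linarith⟩
      have hnv := hnorm u hu h3
      have hne1 : f (r * u) ≠ 0 := hne _ (by linarith) (by linarith)
      have hne2 : f (conj (r * u)) ≠ 0 :=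
        hne _ (by rw [Complex.conj_re]; linarith) (by rw [hconjn]; linarith)
      have h4 : HasDerivAt (fun s : ℂ => (r : ℂ) * (s - 1 / 2)) r (cc 0 + u) := by
        simpa using ((hasDerivAt_id (cc 0 + u)).sub_const (1 / 2 : ℂ)).const_mul (r : ℂ)
      have h5 : HasDerivAt (EE f) (deriv f (r * u) * conj (f (conj (r * u))) +
          f (r * u) * conj (deriv f (conj (r * u)))) ((r : ℂ) * (cc 0 + u - 1 / 2)) := by
        rw [hcc]
        exact EE_hasDeriv hd _
      have h6 := HasDerivAt.comp_of_eq (cc 0 + u) h5 h4 rfl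
      have e1 : (EE f ∘ fun s : ℂ => (r : ℂ) * (s - 1 / 2)) = Ψ := by rw [hΨf]; rfl
      rw [e1] at h6
      refine h6.congr_deriv ?_
      rw [hΨe, hcc, hPe, logDeriv_apply, logDeriv_apply, map_div₀]
      have hne3 : conj (f (conj (r * u))) ≠ 0 := (map_ne_zero _).2 hne2
      unfold EE
      field_simp
    · -- size of P
      have hv := hregu u h1
      have hu : |u.re| ≤ 2 := abs_le.2 ⟨by linarith, by linarith⟩
      have hnv := hnorm u hu h3
      obtain ⟨-, a1, a2⟩ := hin (r * u) (by linarith)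
      obtain ⟨-, b1, b2⟩ := hin (conj (r * u)) (by rw [hconjn]; linarith)
      have h4 := hU.der (r * u) (by linarith) a1 a2
      have h5 := hU.der (conj (r * u)) (by rw [Complex.conj_re]; linarith) b1 b2
      have e : P u - ((2 * n : ℕ) : ℂ) = (r : ℂ) * ((logDeriv f (r * u) - ℓ) +
          conj (logDeriv f (conj (r * u)) - ℓ)) := by
        rw [hPe, map_sub, Complex.conj_ofReal]
        have : (n : ℂ) = (r : ℂ) * ℓ := by
          have := hrℓ
          exact_mod_cast this.symm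
        push_cast
        rw [this]
        ring
      rw [e, norm_mul, Complex.norm_real, Real.norm_eq_abs, abs_of_pos hr0]
      calc r * ‖(logDeriv f (r * u) - ℓ) + conj (logDeriv f (conj (r * u)) - ℓ)‖
          ≤ r * (‖logDeriv f (r * u) - ℓ‖ + ‖conj (logDeriv f (conj (r * u)) - ℓ)‖) := by
            gcongr
            exact norm_add_le _ _
        _ ≤ X * (κ0 * ℓ + κ0 * ℓ) := by
            rw [Complex.norm_conj]
            gcongr
        _ = 2 * (κ0 * ℓ * X) := by ring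
        _ ≤ 2 * (κ * n) := by gcongr
        _ = κ * ((2 * n : ℕ) : ℝ) := by push_cast; ring
    · -- derivative of P
      have hv := hregu u h1
      have hu : |u.re| ≤ 2 := abs_le.2 ⟨by linarith, by linarith⟩
      have hnv := hnorm u hu h3
      have hb : ∀ w : ℂ, ‖w‖ = ‖(r : ℂ) * u‖ → ϑ0 + g / 2 ≤ w.re →
          ∃ d : ℂ, HasDerivAt (logDeriv f) d w ∧ ‖d‖ ≤ κ0 * ℓ / (g / 4) := by
        intro w hw hwr
        have hzn : ∀ z : ℂ, ‖z - w‖ ≤ g / 4 → ‖z‖ ≤ 3 * X + g := fun z hz2 => by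
          calc ‖z‖ = ‖(z - w) + w‖ := by ring_nf
            _ ≤ ‖z - w‖ + ‖w‖ := norm_add_le _ _
            _ ≤ g / 4 + 3 * X := by rw [hw]; gcongr
            _ ≤ _ := by linarith
        exact logDeriv_der hd (ϑ0 := ϑ0) (ℓ := ℓ) (by positivity)
          (fun z hz1 hz2 => hne z hz1 (hzn z hz2)) (fun z hz1 hz2 => by
            obtain ⟨-, a1, a2⟩ := hin z (hzn z hz2)
            exact hU.der z hz1 a1 a2) (by linarith)
      obtain ⟨d1, hd1, hd1'⟩ := hb (r * u) rfl hv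
      obtain ⟨d2, hd2, hd2'⟩ := hb (conj (r * u)) (Complex.norm_conj _) (by rw [Complex.conj_re]; exact hv)
      have h4 : HasDerivAt (fun u : ℂ => (r : ℂ) * u) r u := by
        simpa using (hasDerivAt_id u).const_mul (r : ℂ)
      have h5 : HasDerivAt (fun u : ℂ => logDeriv f (r * u)) (d1 * r) u :=
        HasDerivAt.comp_of_eq u hd1 h4 rfl
      have h6 : HasDerivAt (fun v : ℂ => conj (logDeriv f (conj v))) (conj d2) ((r : ℂ) * u) :=
        cc_hasDeriv hd2
      have h7 : HasDerivAt (fun u : ℂ => conj (logDeriv f (conj (r * u)))) (conj d2 * r) u :=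
        HasDerivAt.comp_of_eq (h₂ := fun v : ℂ => conj (logDeriv f (conj v))) u h6 h4 rfl
      refine ⟨(r : ℂ) * (d1 * r + conj d2 * r), ?_, ?_⟩
      · rw [hP]
        exact (h5.add h7).const_mul (r : ℂ)
      · rw [norm_mul, Complex.norm_real, Real.norm_eq_abs, abs_of_pos hr0]
        have h8 : ‖d1 * r + conj d2 * r‖ ≤ κ0 * ℓ / (g / 4) * X + κ0 * ℓ / (g / 4) * X := by
          refine (norm_add_le _ _).trans ?_
          rw [norm_mul, norm_mul, Complex.norm_conj, Complex.norm_real, Real.norm_eq_abs, abs_of_pos hr0]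
          gcongr
        calc r * ‖d1 * r + conj d2 * r‖ ≤
              X * (κ0 * ℓ / (g / 4) * X + κ0 * ℓ / (g / 4) * X) := by gcongr
          _ = 2 * (4 * X ^ 2 * κ0 * ℓ / g) := by field_simp; ring
          _ ≤ 2 * (κ * n) := by
              have h9 : 4 * X ^ 2 * κ0 * ℓ / g ≤ κ * n := by
                rw [div_le_iff₀ hg]
                calc 4 * X ^ 2 * κ0 * ℓ = κ0 * (4 * X ^ 2) * ℓ := by ring
                  _ ≤ κ * g * g * ℓ := by gcongr
                  _ = κ * (g * ℓ) * g := by ring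
                  _ ≤ κ * n * g := by gcongr
              linarith
          _ = κ * ((2 * n : ℕ) : ℝ) := by push_cast; ring
    · -- upper bound
      rw [zero_add] at h1
      have hnv := hnorm u h1 h2
      obtain ⟨a0, -, a2⟩ := hin (r * u) (by linarith)
      obtain ⟨b0, -, b2⟩ := hin (conj (r * u)) (by rw [hconjn]; linarith)
      rw [hΨe, hcc, EE_norm]
      have h4 := hU.upp (r * u) a0 a2
      have h5 := hU.upp (conj (r * u)) b0 b2
      rw [Complex.conj_re] at h5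
      have hm : ℓ * max |((r : ℂ) * u).re| ϑ0 ≤ n * max |u.re| (1 - δ) := by
        rw [← hrℓ, hreu, abs_mul, abs_of_pos hr0]
        have h7 : max (r * |u.re|) ϑ0 ≤ r * max |u.re| (1 - δ) := by
          refine max_le ?_ ?_
          · gcongr
            exact le_max_left _ _
          · calc ϑ0 ≤ r * (1 - δ) := by linarith
              _ ≤ r * max |u.re| (1 - δ) := by
                  gcongr
                  exact le_max_right _ _
        calc ℓ * max (r * |u.re|) ϑ0 ≤ ℓ * (r * max |u.re| (1 - δ)) := by gcongr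
          _ = _ := by ring
      have h9 : G * Real.exp (ℓ * max |((r : ℂ) * u).re| ϑ0 + κ0 * ℓ) ≤
          G * Real.exp (n * max |u.re| (1 - δ) + κ * n) := by
        apply mul_le_mul_of_nonneg_left _ hG.le
        apply Real.exp_le_exp.2
        linarith
      calc ‖f (r * u)‖ * ‖f (conj (r * u))‖ ≤
            (G * Real.exp (n * max |u.re| (1 - δ) + κ * n)) *
            (G * Real.exp (n * max |u.re| (1 - δ) + κ * n)) :=
              mul_le_mul (h4.trans h9) (h5.trans h9) (norm_nonneg _) (by positivity)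
        _ = G ^ 2 * (Real.exp (n * max |u.re| (1 - δ) + κ * n) *
            Real.exp (n * max |u.re| (1 - δ) + κ * n)) := by ring
        _ = G ^ 2 * Real.exp (((2 * n : ℕ) : ℝ) * max |u.re| (1 - δ) + κ * ((2 * n : ℕ) : ℝ)) := by
            rw [← Real.exp_add]
            congr 2
            push_cast
            ring
    · -- lower bound
      have hx : x = 0 := le_antisymm h2 h1
      rw [hx, hΨe, hcc]
      have e1 : (r : ℂ) * (((0 + 1 : ℝ)) : ℂ) = ((r : ℝ) : ℂ) := by simp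
      rw [e1, EE_norm, Complex.conj_ofReal]
      obtain ⟨-, a1, a2⟩ := hin (r : ℂ) (by
        rw [Complex.norm_real, Real.norm_eq_abs, abs_of_pos hr0]
        linarith)
      have h4 := hU.low (r : ℂ) (by rw [Complex.ofReal_re]; linarith) a1 a2
      rw [Complex.ofReal_re] at h4
      have h9 : G * Real.exp (n - κ * n) ≤ ‖f r‖ := by
        refine le_trans ?_ h4
        apply mul_le_mul_of_nonneg_left _ hG.le
        apply Real.exp_le_exp.2
        have : ℓ * r = n := by rw [mul_comm]; exact hrℓ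
        linarith
      calc G ^ 2 * Real.exp (((2 * n : ℕ) : ℝ) * (0 + 1) - κ * ((2 * n : ℕ) : ℝ))
          = (G * Real.exp (n - κ * n)) * (G * Real.exp (n - κ * n)) := by
            have : Real.exp (((2 * n : ℕ) : ℝ) * (0 + 1) - κ * ((2 * n : ℕ) : ℝ)) =
                Real.exp (n - κ * n) * Real.exp (n - κ * n) := by
              rw [← Real.exp_add]
              congr 1
              push_cast
              ring
            rw [this]
            ring
        _ ≤ ‖f r‖ * ‖f r‖ := mul_le_mul h9 h9 (by positivity) (norm_nonneg _)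
    · push_cast
      linarith
    · push_cast
      linarith
  have hc := center_pos hloc (by simp) hfeΨ (fun u _ => by
      rw [hPe, hPe]
      simp only [map_mul, map_add, Complex.conj_conj, Complex.conj_ofReal]
      ring) (fun x _ => ⟨‖f (r * x)‖ ^ 2, by positivity, by
        rw [hΨe]
        have e : (r : ℂ) * (1 / 2 + (x : ℂ) - 1 / 2) = ((r * x : ℝ) : ℂ) := by push_cast; ring
        rw [e, EE_real]
        push_cast
        rfl⟩)
  -- rescaling
  rw [hΨf, scale0 (EE_diff hd)] at hc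
  have e : (r : ℂ) ^ (2 * n) = ((r ^ (2 * n) : ℝ) : ℂ) := by push_cast; rfl
  rw [e, Complex.re_ofReal_mul] at hc
  have hrp : 0 < r ^ (2 * n) := by positivity
  have h1 : 0 < (iteratedDeriv (2 * n) (EE f) 0).re := (mul_pos_iff_of_pos_left hrp).1 hc
  unfold LC
  have h2 : (0 : ℝ) < ((2 * n).factorial : ℝ) := by exact_mod_cast (2 * n).factorial_pos
  exact div_pos h1 h2

end Pool.Agent.TH803.LU
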