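import Pool.Agent.TH803.LU.Sq
import Pool.Agent.W613.HF.Step

/-!
# Zeros on the line and nonnegative coefficients
-/

set_option autoImplicit false

namespace Pool.Agent.TH803.LU

open Complex Filter Topology Set Metric
open scoped ComplexConjugate
open Pool.Agent.W169.HF H353.E Pool.Agent.W613.HF

/-- real entire functions of minimal exponential type with zeros in `(-∞, 0]`, nonnegative on
`[0, ∞)` -/
structure NC (φ : ℂ → ℂ) : Prop where
  diff : Differentiable ℂ φ
  con : ∀ x, φ (conj x) = conj (φ x)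
  slow : ∀ δ : ℝ, 0 < δ → ∃ K : ℝ, 0 < K ∧ ∀ x : ℂ, ‖φ x‖ ≤ K * Real.exp (δ * ‖x‖)
  zer : ∀ x, φ x = 0 → x.im = 0 ∧ x.re ≤ 0
  nonneg : ∀ x : ℝ, 0 < x → 0 ≤ (φ x).re

theorem conj_deriv {φ : ℂ → ℂ} (hd : Differentiable ℂ φ) (hc : ∀ x, φ (conj x) = conj (φ x)) (x : ℂ) :
    deriv φ (conj x) = conj (deriv φ x) := by
  have h := iter_conj hd hc 1 x
  simpa [iteratedDeriv_one] using h

theorem NC.glc {φ : ℂ → ℂ} (h : NC φ) : GLc 0 (fun s : ℂ => φ ((s - 1 / 2) ^ 2)) := by
  have hd : Differentiable ℂ (fun s : ℂ => φ ((s - 1 / 2) ^ 2)) := h.diff.comp (by fun_prop)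
  refine ⟨hd, ⟨1, fun s => ?_⟩, ?_, fun s hs => ?_⟩
  · rw [one_mul]
    show φ ((s - 1 / 2) ^ 2) = conj (φ ((1 - conj s - 1 / 2) ^ 2))
    rw [← h.con]
    congr 1
    simp only [map_pow, map_sub, map_one, Complex.conj_conj, map_div₀, map_ofNat]
    ring
  · apply slow_growth
    refine ⟨hd, fun δ hδ => ?_⟩
    obtain ⟨K, hK, hb⟩ := h.slow (δ / 2) (by positivity)
    refine ⟨K * Real.exp δ, by positivity, fun z => ?_⟩
    refine (hb _).trans ?_
    rw [mul_assoc, ← Real.exp_add]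
    apply mul_le_mul_of_nonneg_left _ hK.le
    apply Real.exp_le_exp.2
    rw [norm_pow]
    have h1 : ‖z - 1 / 2‖ ≤ ‖z‖ + 1 := by
      refine (norm_sub_le _ _).trans ?_
      norm_num
    have h2 : ‖z - 1 / 2‖ ^ 2 ≤ 2 * ‖z‖ ^ 2 + 2 := by
      have h3 : ‖z - 1 / 2‖ ^ 2 ≤ (‖z‖ + 1) ^ 2 := pow_le_pow_left₀ (norm_nonneg _) h1 2
      nlinarith [sq_nonneg (‖z‖ - 1)]
    nlinarith
  · have h1 := h.zer _ hs
    obtain ⟨a, ha⟩ : ∃ a : ℂ, a = s - 1 / 2 := ⟨_, rfl⟩
    rw [← ha, sq, Complex.mul_re, Complex.mul_im] at h1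
    have h2 : a.re = 0 := by
      by_contra h3
      have h4 : a.im = 0 := by
        have h5 : a.re * a.im = 0 := by linarith [h1.1]
        rcases mul_eq_zero.1 h5 with h6 | h6
        · exact absurd h6 h3
        · exact h6
      rw [h4] at h1
      have : 0 < a.re * a.re := mul_self_pos.2 h3
      linarith [h1.2]
    rw [ha] at h2
    simp at h2
    linarith

theorem NC.step {φ : ℂ → ℂ} (h : NC φ) (hne : ∃ x, deriv φ x ≠ 0) : NC (deriv φ) := by
  obtain ⟨F, hF⟩ : ∃ F : ℂ → ℂ, F = fun s : ℂ => φ ((s - 1 / 2) ^ 2) := ⟨_, rfl⟩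
  have hG : GLc 0 F := by rw [hF]; exact h.glc
  have hder : ∀ s : ℂ, deriv F s = deriv φ ((s - 1 / 2) ^ 2) * (2 * (s - 1 / 2)) := fun s => by
    have h1 : HasDerivAt (fun s : ℂ => (s - 1 / 2) ^ 2) (2 * (s - 1 / 2)) s := by
      have := ((hasDerivAt_id s).sub_const (1 / 2 : ℂ)).fun_pow 2
      simpa using this
    have h2 := HasDerivAt.comp_of_eq (h₂ := φ) s (h.diff ((s - 1 / 2) ^ 2)).hasDerivAt h1 rfl
    rw [hF]
    exact h2.deriv
  have hne' : ∃ z, deriv F z ≠ 0 := by
    by_contra hcon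
    push Not at hcon
    obtain ⟨x, hx⟩ := hne
    have hz : ∀ w : ℂ, w ≠ 0 → deriv φ w = 0 := fun w hw => by
      obtain ⟨z, hz⟩ := exists_sq w
      have h1 := hcon (1 / 2 + z)
      rw [hder] at h1
      have e : (1 / 2 + z - 1 / 2 : ℂ) = z := by ring
      rw [e, hz] at h1
      rcases mul_eq_zero.1 h1 with h2 | h2
      · exact h2
      · exfalso
        apply hw
        rw [← hz]
        have : z = 0 := by
          rcases mul_eq_zero.1 h2 with h3 | h3
          · norm_num at h3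
          · exact h3
        rw [this]
        norm_num
    have hx0 : x = 0 := by
      by_contra h1
      exact hx (hz x h1)
    -- continuity at 0
    have hc : Continuous (deriv φ) := h.diff.deriv.continuous
    have h1 : Tendsto (fun k : ℕ => deriv φ ((1 / ((k : ℝ) + 1) : ℝ) : ℂ)) atTop (𝓝 (deriv φ 0)) := by
      have h2 : Tendsto (fun k : ℕ => ((1 / ((k : ℝ) + 1) : ℝ) : ℂ)) atTop (𝓝 ((0 : ℝ) : ℂ)) :=
        (Complex.continuous_ofReal.tendsto 0).comp tendsto_one_div_add_atTop_nhds_zero_nat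
      rw [Complex.ofReal_zero] at h2
      exact (hc.tendsto 0).comp h2
    have h3 : (fun k : ℕ => deriv φ ((1 / ((k : ℝ) + 1) : ℝ) : ℂ)) = fun _ => (0 : ℂ) := by
      funext k
      apply hz
      have : (0 : ℝ) < 1 / ((k : ℝ) + 1) := by positivity
      exact_mod_cast this.ne'
    rw [h3] at h1
    have h4 := tendsto_nhds_unique h1 tendsto_const_nhds
    rw [hx0] at hx
    exact hx h4
  have hG' : GLc 0 (deriv F) := hG.deriv hne'
  refine ⟨h.diff.deriv, conj_deriv h.diff h.con, fun δ hδ => ?_, fun x hx => ?_, fun x hx => ?_⟩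
  · obtain ⟨K, hK, hb⟩ := h.slow δ hδ
    refine ⟨K * Real.exp δ, by positivity, fun x => ?_⟩
    have h1 := norm_deriv_le_of_forall_mem_sphere_norm_le (C := K * Real.exp (δ * (‖x‖ + 1))) one_pos
      (h.diff.diffContOnCl (s := ball x 1)) (fun z hz => by
        refine (hb z).trans ?_
        rw [mem_sphere, dist_eq_norm] at hz
        have h2 : ‖z‖ ≤ ‖x‖ + 1 := by
          calc ‖z‖ = ‖x + (z - x)‖ := by ring_nf
            _ ≤ ‖x‖ + ‖z - x‖ := norm_add_le _ _
            _ = ‖x‖ + 1 := by rw [hz]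
        gcongr)
    rw [div_one] at h1
    refine h1.trans (le_of_eq ?_)
    rw [mul_assoc, ← Real.exp_add]
    ring_nf
  · obtain ⟨z, hz⟩ := exists_sq x
    have key : ∀ z : ℂ, z ^ 2 = x → z.re ≤ 0 := fun z hz => by
      have h1 := hG'.zer (1 / 2 + z) (by
        rw [hder]
        have e : (1 / 2 + z - 1 / 2 : ℂ) = z := by ring
        rw [e, hz, hx, zero_mul])
      simp at h1
      exact h1
    have h1 := key z hz
    have h2 := key (-z) (by rw [neg_sq]; exact hz)
    rw [neg_re] at h2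
    have h3 : z.re = 0 := by linarith
    rw [← hz, sq, Complex.mul_re, Complex.mul_im, h3]
    constructor
    · ring
    · nlinarith [sq_nonneg z.im]
  · -- nonnegative on the positive half line
    have hφne : ∀ w, φ w = 0 → w.im = 0 ∧ w.re ≤ 0 := h.zer
    obtain ⟨y, hy⟩ : ∃ y : ℝ, y = Real.sqrt x := ⟨_, rfl⟩
    have hy0 : 0 < y := by rw [hy]; exact Real.sqrt_pos.2 hx
    have hy2 : y ^ 2 = x := by rw [hy]; exact Real.sq_sqrt hx.le
    have hFne : ∃ z, F z ≠ 0 := by
      refine ⟨1 / 2 + y, fun h0 => ?_⟩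
      rw [hF] at h0
      have e : ((1 / 2 + (y : ℂ) - 1 / 2) ^ 2 : ℂ) = (x : ℂ) := by
        rw [← hy2]
        push_cast
        ring
      simp only [e] at h0
      have := (hφne _ h0).2
      rw [Complex.ofReal_re] at this
      linarith
    have h1 := re_nonneg hG hFne (s := 1 / 2 + y) (by simp; exact hy0)
    rw [hder] at h1
    have e : (1 / 2 + (y : ℂ) - 1 / 2 : ℂ) = y := by ring
    have e2 : F (1 / 2 + y) = φ x := by
      rw [hF]
      show φ ((1 / 2 + (y : ℂ) - 1 / 2) ^ 2) = φ x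
      rw [e, ← hy2]
      push_cast
      rfl
    rw [e, e2] at h1
    have e3 : ((y : ℂ) ^ 2) = (x : ℂ) := by
      rw [← hy2]
      push_cast
      rfl
    rw [e3] at h1
    -- `φ x` is a positive real number
    have h2 : φ x = ((φ x).re : ℂ) := by
      have h3 := h.con (x : ℂ)
      rw [Complex.conj_ofReal] at h3
      exact (Complex.conj_eq_iff_re.1 h3.symm).symm
    have h3 : 0 < (φ x).re := by
      refine lt_of_le_of_ne (h.nonneg x hx) (fun h4 => ?_)
      rw [← h4, Complex.ofReal_zero] at h2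
      have := (hφne _ h2).2
      rw [Complex.ofReal_re] at this
      linarith
    rw [h2] at h1
    have e4 : deriv φ x * (2 * (y : ℂ)) / (((φ x).re : ℝ) : ℂ) =
        ((2 * y / (φ x).re : ℝ) : ℂ) * deriv φ x := by
      push_cast
      ring
    rw [e4, Complex.re_ofReal_mul] at h1
    have h5 : 0 < 2 * y / (φ x).re := by positivity
    by_contra h6
    have := mul_neg_of_pos_of_neg h5 (not_le.1 h6)
    linarith

theorem NC.zero_nonneg {φ : ℂ → ℂ} (h : NC φ) : 0 ≤ (φ 0).re := by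
  have hc : Continuous fun x : ℝ => (φ x).re :=
    Complex.continuous_re.comp (h.diff.continuous.comp Complex.continuous_ofReal)
  have h1 : Tendsto (fun k : ℕ => (φ ((1 / ((k : ℝ) + 1) : ℝ) : ℂ)).re) atTop (𝓝 (φ ((0 : ℝ) : ℂ)).re) :=
    (hc.tendsto 0).comp tendsto_one_div_add_atTop_nhds_zero_nat
  rw [Complex.ofReal_zero] at h1
  exact ge_of_tendsto' h1 fun k => h.nonneg _ (by positivity)

/-- all derivatives at `0` are nonnegative -/
theorem NC.iter_nonneg (n : ℕ) : ∀ φ : ℂ → ℂ, NC φ → 0 ≤ (iteratedDeriv n φ 0).re := by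
  induction n with
  | zero => intro φ h; simpa using h.zero_nonneg
  | succ n ih =>
    intro φ h
    rw [iteratedDeriv_succ']
    by_cases hne : ∃ x, deriv φ x ≠ 0
    · exact ih _ (h.step hne)
    · push Not at hne
      have e : deriv φ = fun _ => 0 := funext hne
      rw [e]
      have : iteratedDeriv n (fun _ : ℂ => (0 : ℂ)) 0 = 0 := by
        rw [iteratedDeriv_const]
        simp
      rw [this]
      simp

/-- zeros on the line imply nonnegative coefficients -/
theorem LC_nonneg_of {f : ℂ → ℂ} (hs : Slow f) (hfe : FE0 f) (hz : ∀ z, f z = 0 → z.re = 0) (n : ℕ) :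
    0 ≤ LC f n := by
  rw [LC_nonneg_iff]
  have hd := EE_diff hs.1
  have hev := EE_neg hfe
  have hNC : NC (sqf (EE f)) := by
    refine ⟨sqf_diff hd hev, sqf_conj hd hev (EE_conj f), fun δ hδ => ?_, fun x hx => ?_, fun x hx => ?_⟩
    · obtain ⟨K, hK, hb⟩ := hs.2 (δ / 2) (by positivity)
      refine ⟨K * K, by positivity, fun x => ?_⟩
      obtain ⟨z, rfl⟩ := exists_sq x
      rw [sqf_sq hd hev, EE_norm, norm_pow]
      have h1 := hb z
      have h2 := hb (conj z)
      rw [Complex.norm_conj] at h2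
      calc ‖f z‖ * ‖f (conj z)‖ ≤ (K * Real.exp (δ / 2 * ‖z‖ ^ 2)) * (K * Real.exp (δ / 2 * ‖z‖ ^ 2)) :=
            mul_le_mul h1 h2 (norm_nonneg _) (by positivity)
        _ = K * K * (Real.exp (δ / 2 * ‖z‖ ^ 2) * Real.exp (δ / 2 * ‖z‖ ^ 2)) := by ring
        _ = K * K * Real.exp (δ * ‖z‖ ^ 2) := by
            rw [← Real.exp_add]
            ring_nf
    · obtain ⟨z, rfl⟩ := exists_sq x
      rw [sqf_sq hd hev] at hx
      unfold EE at hx
      have h1 : z.re = 0 := by
        rcases mul_eq_zero.1 hx with h | h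
        · exact hz z h
        · have := hz (conj z) ((map_eq_zero _).1 h)
          simpa using this
      rw [sq, Complex.mul_re, Complex.mul_im, h1]
      constructor
      · ring
      · nlinarith [sq_nonneg z.im]
    · obtain ⟨y, hy⟩ : ∃ y : ℝ, y = Real.sqrt x := ⟨_, rfl⟩
      have hy2 : y ^ 2 = x := by rw [hy]; exact Real.sq_sqrt hx.le
      have e : (x : ℂ) = (y : ℂ) ^ 2 := by rw [← hy2]; push_cast; rfl
      rw [e, sqf_sq hd hev, EE_real, Complex.ofReal_re]
      positivity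
  have h1 := NC.iter_nonneg n _ hNC
  rw [sqf_iter hd hev] at h1
  have h3 : (0 : ℝ) < ((2 * n).factorial : ℝ) := by exact_mod_cast (2 * n).factorial_pos
  have h4 : (0 : ℝ) < (n.factorial : ℝ) := by exact_mod_cast n.factorial_pos
  have e : (n.factorial : ℂ) * (iteratedDeriv (2 * n) (EE f) 0 / ((2 * n).factorial : ℂ)) =
      ((n.factorial / (2 * n).factorial : ℝ) : ℂ) * iteratedDeriv (2 * n) (EE f) 0 := by
    push_cast
    ring
  rw [e, Complex.re_ofReal_mul] at h1
  by_contra h5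
  have := mul_neg_of_pos_of_neg (div_pos h4 h3) (not_le.1 h5)
  linarith

/-- nonnegative coefficients imply that there are no zeros off the line -/
theorem ne_zero_of_nonneg {f : ℂ → ℂ} (hf : Differentiable ℂ f) (hfe : FE0 f)
    (hn : ∀ n, 0 ≤ LC f n) {y : ℝ} (hy : y ≠ 0) (h0 : f y = 0) : ∀ x : ℝ, f x = 0 := by
  have h1 := hasSum_LC hf hfe y
  rw [h0, norm_zero] at h1
  have h2 : (0 : ℝ) ^ 2 = 0 := by norm_num
  rw [h2] at h1
  have hy2 : ∀ n : ℕ, 0 < y ^ (2 * n) := fun n => by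
    rw [pow_mul]
    have : 0 < y ^ 2 := by positivity
    positivity
  have h3 := (hasSum_zero_iff_of_nonneg (fun k => mul_nonneg (hn k) (hy2 k).le)).1 h1
  have h4 : ∀ k, LC f k = 0 := fun k => by
    have := congrFun h3 k
    simp only [Pi.zero_apply] at this
    rcases mul_eq_zero.1 this with h5 | h5
    · exact h5
    · exact absurd h5 (hy2 k).ne'
  intro x
  have h5 := hasSum_LC hf hfe x
  simp only [h4, zero_mul] at h5
  have h6 : ‖f x‖ ^ 2 = 0 := h5.unique hasSum_zero
  have h7 : ‖f x‖ = 0 := by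
    by_contra h8
    have : 0 < ‖f x‖ ^ 2 := by positivity
    linarith
  exact norm_eq_zero.1 h7

end Pool.Agent.TH803.LU
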