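import Pool.Agent.TH803.LU.Prof
import Pool.Agent.TH803.LU.RHn
import Pool.Agent.H353R7.G4
import Pool.Agent.W355.UN.Pack
import Pool.Agent.W45.HF.Prof
import Pool.Agent.W351.HF.TC
import Pool.Agent.W397.HF.Lcx

/-!
# Positivity of the Taylor coefficients of `|Λ(1/2 + i t + y)|²`, uniformly in the L-function
-/

set_option autoImplicit false

namespace Pool.Agent.TH803.LU

open Complex Filter Topology Set Metric
open scoped ComplexConjugate
open Pool.Agent.W169.HF Pool.Agent.W355.UN H353.E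

variable {m : ℕ} {B : ℝ → ℝ} {N θ : ℝ} {μ : Fin m → ℂ} {X L : ℂ → ℂ}

theorem prof_all : S_PROF := Pool.Agent.W45.HF.prof_of Pool.Agent.W351.HF.tc Pool.Agent.W397.HF.lcx

/-- the function near the point at height `t` of the critical line -/
noncomputable def sh (X : ℂ → ℂ) (t : ℝ) (u : ℂ) : ℂ := X (1 / 2 + t * I + u)

theorem sh_slow (h : Slow X) (t : ℝ) : Slow (sh X t) := by
  have h1 := slow_affine h (1 / 2 + t * I) (S := 1) one_pos
  have e : (fun u : ℂ => X (1 / 2 + t * I + ((1 : ℝ) : ℂ) * u)) = sh X t := by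
    funext u
    unfold sh
    rw [Complex.ofReal_one, one_mul]
  rwa [e] at h1

theorem sh_fe (h : ∃ ε : ℂ, ‖ε‖ = 1 ∧ ∀ s : ℂ, X s = ε * conj (X (1 - conj s))) (t : ℝ) :
    FE0 (sh X t) := by
  obtain ⟨ε, hε, hfe⟩ := h
  refine ⟨ε, hε, fun u => ?_⟩
  unfold sh
  rw [hfe (1 / 2 + t * I + u)]
  congr 3
  simp only [map_add, map_mul, map_div₀, map_one, map_ofNat, Complex.conj_ofReal, Complex.conj_I]
  ring

theorem LC_scale {f : ℂ → ℂ} (hf : Differentiable ℂ f) (S : ℝ) (n : ℕ) :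
    LC (fun u => f (S * u)) n = S ^ (2 * n) * LC f n := by
  have e : EE (fun u => f (S * u)) = fun z => EE f ((S : ℂ) * z) := by
    funext z
    unfold EE
    simp only [map_mul, Complex.conj_ofReal]
  unfold LC
  rw [e, iteratedDeriv_comp_const_mul (EE_diff hf).contDiff (S : ℂ)]
  simp only [mul_zero]
  have e2 : (S : ℂ) ^ (2 * n) = ((S ^ (2 * n) : ℝ) : ℂ) := by push_cast; rfl
  rw [e2, Complex.re_ofReal_mul]
  ring

lemma ell_le (h : UL m B N θ μ X L) (y : ℝ) {S : ℝ} (hS : 1 ≤ S) :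
    ell N μ y S ≤ 1 / 2 * Real.log (cond N μ y) + (5 + 6 * (2 * S - 1)) * m := by
  have h1 := H353.F.gaD_re_le h.hN h.re_le y
  have h2 := h.gp.lipD (ρ := 1) (s := 1 / 2 + 2 * S + y * I) (t := 3 / 2 + y * I)
    le_rfl (by rw [base_re]; linarith) (by simp; norm_num)
  have e : (1 / 2 + 2 * S + y * I : ℂ) - (3 / 2 + y * I) = ((2 * S - 1 : ℝ) : ℂ) := by
    push_cast; ring
  rw [e, Complex.norm_real, Real.norm_eq_abs, abs_of_nonneg (by linarith), div_one] at h2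
  have h3 := (abs_le.1 ((Complex.abs_re_le_norm _).trans h2)).2
  rw [sub_re] at h3
  unfold ell Pool.Agent.W355.UN.cond
  linarith

/-- **Absolute form.** -/
theorem abs_pos {B : ℝ → ℝ} (hB : 0 ≤ B 1) : ∃ C : ℝ, 0 < C ∧ ∀ (m : ℕ) (N θ : ℝ) (μ : Fin m → ℂ)
    (X L : ℂ → ℂ), UL m B N θ μ X L → θ ≤ 1 → ∀ (t : ℝ) (n : ℕ),
    C * (m + Real.log (cond N μ t)) ≤ n → 0 < LC (sh X t) n := by
  obtain ⟨κ0, R0, ℓ0, hκ0, hR0, hℓ0, H⟩ := prof_pos (ϑ0 := 1 / 2) (g := 1 / 2) (X := 1)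
    (by norm_num) (by norm_num) le_rfl
  obtain ⟨c, hc⟩ : ∃ c : ℝ, c = 9 * (111 + 3 * B 1) * (1 + 2 * R0 ^ 2) := ⟨_, rfl⟩
  have hc0 : 0 < c := by rw [hc]; positivity
  obtain ⟨M, hM⟩ : ∃ M : ℝ, M = max 1 (max ℓ0 (c / κ0)) := ⟨_, rfl⟩
  have hM1 : 1 ≤ M := by rw [hM]; exact le_max_left _ _
  have hM2 : ℓ0 ≤ M := by rw [hM]; exact (le_max_left _ _).trans (le_max_right _ _)
  have hM3 : c / κ0 ≤ M := by rw [hM]; exact (le_max_right _ _).trans (le_max_right _ _)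
  obtain ⟨S1, hS1⟩ : ∃ S1 : ℝ, S1 = max 5 (2 * Real.exp (2 * M + 10)) := ⟨_, rfl⟩
  have hS15 : 5 ≤ S1 := by rw [hS1]; exact le_max_left _ _
  have hS1e : 2 * Real.exp (2 * M + 10) ≤ S1 := by rw [hS1]; exact le_max_right _ _
  refine ⟨12 * S1 ^ 2, by positivity, fun m N θ μ X L h hθ t n hn => ?_⟩
  have hm : (1 : ℝ) ≤ m := by exact_mod_cast h.hm
  have hθ0 := h.hθ
  have hlogN : 0 ≤ Real.log N := Real.log_nonneg h.hN
  have hlogc : 0 ≤ Real.log (cond N μ t) := Real.log_nonneg (one_le_cond h.hN μ t)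
  have hell : ∀ S : ℝ, S1 ≤ S → M * m ≤ ell N μ t S := fun S hS => by
    have := ell_ge_of (N := N) (y := t) h.re_le (S := S) (r := M) (by linarith) (by
      have := Real.exp_pos (2 * M + 10)
      linarith)
    linarith
  have hup := ell_le h t (S := S1) (by linarith)
  have hn1 : S1 * ell N μ t S1 ≤ n := by
    refine le_trans ?_ hn
    have h1 : ell N μ t S1 ≤ 12 * S1 * (m + Real.log (cond N μ t)) := by
      nlinarith [mul_nonneg (by linarith : (0 : ℝ) ≤ S1 - 5) hlogc]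
    calc S1 * ell N μ t S1 ≤ S1 * (12 * S1 * (m + Real.log (cond N μ t))) := by gcongr
      _ = _ := by ring
  obtain ⟨S3, hS3⟩ : ∃ S3 : ℝ, S3 = max S1 n := ⟨_, rfl⟩
  have h13 : S1 ≤ S3 := by rw [hS3]; exact le_max_left _ _
  have hn3 : (n : ℝ) ≤ S3 * ell N μ t S3 := by
    have h1 := hell S3 h13
    have h2 : (n : ℝ) ≤ S3 := by rw [hS3]; exact le_max_right _ _
    have h3 : 1 ≤ ell N μ t S3 := by nlinarith
    have h4 : 0 ≤ S3 := by linarith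
    nlinarith
  have hcont : ContinuousOn (fun S => S * ell N μ t S) (Icc S1 S3) :=
    continuousOn_id.mul ((ell_cont h t).mono fun S hS => by
      show (1 : ℝ) ≤ S
      linarith [hS.1])
  obtain ⟨S, hS, hSn⟩ := intermediate_value_Icc h13 hcont ⟨hn1, hn3⟩
  simp only at hSn
  have hS5 : 5 ≤ S := hS15.trans hS.1
  have hS0 : 0 < S := by linarith
  have hMm := hell S hS.1
  obtain ⟨ℓ, hℓ⟩ : ∃ ℓ : ℝ, ℓ = ell N μ t S := ⟨_, rfl⟩
  rw [← hℓ] at hSn hMm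
  have hℓM : M ≤ ℓ := by nlinarith
  have hℓpos : 0 < ℓ := by linarith
  obtain ⟨G, hG⟩ := h.up (y := t) (S := S) (ϑ0 := 1 / 2) (ρ := 1) (by linarith) le_rfl (by norm_num)
    one_pos le_rfl (by linarith)
  rw [← hℓ] at hG
  have hpf := hG.pf (κ := κ0) (R := R0) (by positivity) (by norm_num) (by
    have h1 : c * m ≤ κ0 * ℓ := by
      have h2 : c / κ0 * m ≤ ℓ := le_trans (mul_le_mul_of_nonneg_right hM3 (by linarith)) hMm
      rw [div_mul_eq_mul_div, div_le_iff₀ hκ0] at h2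
      linarith
    calc 9 * (m * S * (111 + 3 * B 1)) * (1 + 2 * R0 ^ 2) = S * (c * m) := by rw [hc]; ring
      _ ≤ S * (κ0 * ℓ) := by gcongr
      _ = κ0 * (S * ℓ) := by ring)
  have hpos := H (S * ℓ) G _ n (by nlinarith) hG.hG hG.slow.1 hG.fe hpf (by rw [hSn]; linarith)
    (by rw [hSn]; linarith)
  have e : (fun u : ℂ => X (1 / 2 + t * I + S * u)) = fun u => sh X t (S * u) := rfl
  rw [e, LC_scale (sh_slow h.slow t).1] at hpos
  exact (mul_pos_iff_of_pos_left (by positivity)).1 hpos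

/-- **Sharp form.** -/
theorem sharp_pos {B : ℝ → ℝ} {θ η : ℝ} (hB : ∀ ρ, 0 ≤ B ρ) (hθ0 : 0 ≤ θ) (hθ1 : θ ≤ 1 / 2)
    (hη : 0 < η) (hη1 : η ≤ 1) : ∃ K : ℝ, 0 < K ∧ ∀ (m : ℕ) (N : ℝ) (μ : Fin m → ℂ)
    (X L : ℂ → ℂ), UL m B N θ μ X L → ∀ (t : ℝ) (n : ℕ), K * m ≤ Real.log (cond N μ t) →
    ((1 + 2 * θ) / 4 + η) * Real.log (cond N μ t) ≤ n → 0 < LC (sh X t) n := by
  obtain ⟨C, hC, HC⟩ := abs_pos (hB 1)
  obtain ⟨κ0, R0, ℓ0, hκ0, hR0, hℓ0, H⟩ := prof_pos (ϑ0 := 1 / 2 + θ + η / 2) (g := η / 2)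
    (X := max 1 (8 * C)) (by positivity) (by positivity) (le_max_left _ _)
  obtain ⟨c, hc⟩ : ∃ c : ℝ, c = 9 * (111 + 3 * B (η / 2)) * (1 + 2 * R0 ^ 2) := ⟨_, rfl⟩
  have hBη := hB (η / 2)
  have hc0 : 0 < c := by rw [hc]; positivity
  obtain ⟨K, hK⟩ : ∃ K : ℝ, K = 28 + 44 / η + 4 * c / κ0 + 4 * ℓ0 := ⟨_, rfl⟩
  have k1 : 0 < 44 / η := by positivity
  have k2 : 0 < 4 * c / κ0 := by positivity
  have k3 : 0 < 4 * ℓ0 := by linarith
  refine ⟨K, by linarith, fun m N μ X L h t n hcond hn => ?_⟩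
  have hm : (1 : ℝ) ≤ m := by exact_mod_cast h.hm
  obtain ⟨lc, hlc⟩ : ∃ lc : ℝ, lc = Real.log (cond N μ t) := ⟨_, rfl⟩
  rw [← hlc] at hcond hn
  have q1 : 28 * m ≤ lc := by nlinarith
  have q2 : 44 / η * m ≤ lc := by nlinarith
  have q3 : 4 * c / κ0 * m ≤ lc := by nlinarith
  have q4 : 4 * ℓ0 * m ≤ lc := by nlinarith
  by_cases hcase : C * (m + lc) ≤ n
  · exact HC m N θ μ X L h (by linarith) t n (by rw [← hlc]; exact hcase)
  push Not at hcase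
  obtain ⟨ℓ, hℓ⟩ : ∃ ℓ : ℝ, ℓ = ell N μ t 1 := ⟨_, rfl⟩
  have hlo := ell_ge h.hN h.re_le (y := t) (S := 1) le_rfl
  have hhi := ell_le h t (S := 1) le_rfl
  rw [← hℓ, ← hlc] at hlo hhi
  have hℓ4 : lc ≤ 4 * ℓ := by linarith
  have hℓ0' : ℓ0 ≤ ℓ := by nlinarith
  have hℓpos : 0 < ℓ := by linarith
  obtain ⟨G, hG⟩ := h.up (y := t) (S := 1) (ϑ0 := 1 / 2 + θ + η / 2) (ρ := η / 2) le_rfl
    (by linarith) (by linarith) (by positivity) (by linarith) (by linarith)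
  rw [← hℓ, one_mul] at hG
  have hpf := hG.pf (κ := κ0) (R := R0) (by positivity) (by positivity) (by
    have h1 : c * m ≤ κ0 * ℓ := by
      have h2 : 4 * c / κ0 * m ≤ 4 * ℓ := q3.trans hℓ4
      rw [div_mul_eq_mul_div, div_le_iff₀ hκ0] at h2
      linarith
    calc 9 * (m * 1 * (111 + 3 * B (η / 2))) * (1 + 2 * R0 ^ 2) = c * m := by rw [hc]; ring
      _ ≤ κ0 * ℓ := h1)
  have hpos := H ℓ G _ n hℓ0' hG.hG hG.slow.1 hG.fe hpf (by
    have q5 : 44 * m ≤ η * lc := by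
      rw [div_mul_eq_mul_div, div_le_iff₀ hη] at q2
      linarith
    have h1 : (1 / 2 + θ + η / 2 + η / 2) * ℓ ≤ (1 / 2 + θ + η) * (1 / 2 * lc + 11 * m) := by
      have e : 1 / 2 + θ + η / 2 + η / 2 = 1 / 2 + θ + η := by ring
      rw [e]
      have : 0 ≤ 1 / 2 + θ + η := by positivity
      gcongr
      linarith
    have h2 : (1 / 2 + θ + η) * (11 * m) ≤ 2 * (11 * m) := by
      have : 0 ≤ 11 * (m : ℝ) := by positivity
      gcongr
      linarith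
    refine (h1.trans ?_).trans hn
    nlinarith) (by
    have h1 : (n : ℝ) ≤ 8 * C * ℓ := by
      have h2 : C * (m + lc) ≤ C * (2 * lc) := by
        gcongr
        nlinarith
      nlinarith
    refine h1.trans ?_
    have := le_max_right 1 (8 * C)
    gcongr)
  have e : (fun u : ℂ => X (1 / 2 + t * I + ((1 : ℝ) : ℂ) * u)) = sh X t := by
    funext u
    unfold sh
    rw [Complex.ofReal_one, one_mul]
  rwa [e] at hpos

/-- **Under a zero-free half-plane.** -/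
theorem zf_pos {B : ℝ → ℝ} {ϑ η : ℝ} (hB : ∀ ρ, 0 ≤ B ρ) (hϑ : 0 ≤ ϑ) (hϑ1 : ϑ ≤ 1 / 2)
    (hη : 0 < η) (hη1 : η ≤ 1) (m : ℕ) : ∃ K : ℝ, 0 < K ∧ ∀ (N : ℝ) (μ : Fin m → ℂ)
    (X L : ℂ → ℂ), UL m B N 0 μ X L → (∀ s : ℂ, X s = 0 → s.re ≤ 1 / 2 + ϑ) →
    ∀ (t : ℝ) (n : ℕ), K ≤ Real.log (cond N μ t) →
    (ϑ / 2 + η) * Real.log (cond N μ t) ≤ n → 0 < LC (sh X t) n := by
  obtain ⟨C, hC, HC⟩ := abs_pos (hB 1)
  obtain ⟨κ0, R0, ℓ0, hκ0, hR0, hℓ0, H⟩ := prof_pos (ϑ0 := ϑ + η / 2) (g := η / 2)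
    (X := max 1 (8 * C)) (by positivity) (by positivity) (le_max_left _ _)
  obtain ⟨K1, hK1⟩ : ∃ K1 : ℝ, K1 = max 1 (9 * (m * 1 * (111 + 3 * B (1 / 2)))) := ⟨_, rfl⟩
  obtain ⟨R, ℓ1, -, HP⟩ := prof_all K1 1 ϑ (η / 2) κ0 R0 (by rw [hK1]; exact le_max_left _ _)
    (by norm_num) (by norm_num) hϑ (by linarith) (by positivity) (by linarith) hκ0 hR0
  obtain ⟨K, hK⟩ : ∃ K : ℝ, K = (28 + 44 / η) * m + m + 4 * |ℓ1| + 4 * ℓ0 := ⟨_, rfl⟩
  have k1 : 0 < 44 / η := by positivity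
  have k2 : (0 : ℝ) ≤ m := by positivity
  refine ⟨K, by rw [hK]; positivity, fun N μ X L h hz t n hcond hn => ?_⟩
  have hm : (1 : ℝ) ≤ m := by exact_mod_cast h.hm
  obtain ⟨lc, hlc⟩ : ∃ lc : ℝ, lc = Real.log (cond N μ t) := ⟨_, rfl⟩
  rw [← hlc] at hcond hn
  have a1 := abs_nonneg ℓ1
  have k3 : 0 ≤ 44 / η * m := by positivity
  have q1 : 28 * m ≤ lc := by nlinarith
  have q2 : 44 / η * m ≤ lc := by nlinarith
  have q3 : 4 * |ℓ1| ≤ lc := by nlinarith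
  have q4 : 4 * ℓ0 ≤ lc := by nlinarith
  by_cases hcase : C * (m + lc) ≤ n
  · exact HC m N 0 μ X L h (by norm_num) t n (by rw [← hlc]; exact hcase)
  push Not at hcase
  obtain ⟨ℓ, hℓ⟩ : ∃ ℓ : ℝ, ℓ = ell N μ t 1 := ⟨_, rfl⟩
  have hlo := ell_ge h.hN h.re_le (y := t) (S := 1) le_rfl
  have hhi := ell_le h t (S := 1) le_rfl
  rw [← hℓ, ← hlc] at hlo hhi
  have hℓ4 : lc ≤ 4 * ℓ := by linarith
  have hℓ0' : ℓ0 ≤ ℓ := by linarith
  have hℓ1' : ℓ1 ≤ ℓ := by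
    have := le_abs_self ℓ1
    linarith
  obtain ⟨G, hG⟩ := h.up (y := t) (S := 1) (ϑ0 := 1) (ρ := 1 / 2) le_rfl
    (by norm_num) (by norm_num) (by norm_num) (by norm_num) (by norm_num)
  rw [← hℓ, one_mul] at hG
  have e : (fun u : ℂ => X (1 / 2 + t * I + ((1 : ℝ) : ℂ) * u)) = sh X t := by
    funext u
    unfold sh
    rw [Complex.ofReal_one, one_mul]
  rw [e] at hG
  have hUD : UD K1 1 ℓ G (sh X t) := by
    have hK1' : 9 * (m * 1 * (111 + 3 * B (1 / 2))) ≤ K1 := by rw [hK1]; exact le_max_right _ _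
    refine ⟨hG.slow, hG.fe, hG.hG, fun u => (hG.up u).trans ?_, fun u hu => le_trans ?_ (hG.lo u hu)⟩
    · apply mul_le_mul_of_nonneg_left _ hG.hG.le
      apply Real.exp_le_exp.2
      gcongr
    · apply mul_le_mul_of_nonneg_left _ hG.hG.le
      apply Real.exp_le_exp.2
      gcongr
  have hpf := HP ℓ G (sh X t) hℓ1' hUD (fun u hu _ h0 => by
    have h1 := hz _ h0
    simp at h1
    linarith)
  refine H ℓ G _ n hℓ0' hG.hG hG.slow.1 hG.fe hpf (by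
    have q5 : 44 * m ≤ η * lc := by
      rw [div_mul_eq_mul_div, div_le_iff₀ hη] at q2
      linarith
    have h1 : (ϑ + η / 2 + η / 2) * ℓ ≤ (ϑ + η) * (1 / 2 * lc + 11 * m) := by
      have e : ϑ + η / 2 + η / 2 = ϑ + η := by ring
      rw [e]
      have : 0 ≤ ϑ + η := by positivity
      gcongr
      linarith
    have h2 : (ϑ + η) * (11 * m) ≤ 2 * (11 * m) := by
      have : 0 ≤ 11 * (m : ℝ) := by positivity
      gcongr
      linarith
    refine (h1.trans ?_).trans hn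
    nlinarith) (by
    have h1 : (n : ℝ) ≤ 8 * C * ℓ := by
      have h2 : C * (m + lc) ≤ C * (2 * lc) := by
        gcongr
        nlinarith
      nlinarith
    refine h1.trans ?_
    have := le_max_right 1 (8 * C)
    have : 0 < ℓ := by linarith
    gcongr)

/-- **The criterion.** -/
theorem rh_iff_lag (h : UL m B N θ μ X L) :
    (∀ s : ℂ, X s = 0 → s.re = 1 / 2) ↔ ∀ (n : ℕ) (t : ℝ), 0 ≤ LC (sh X t) n := by
  constructor
  · intro hz n t
    refine LC_nonneg_of (sh_slow h.slow t) (sh_fe h.fe t) (fun z hz0 => ?_) n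
    have h1 := hz _ hz0
    simp at h1
    exact h1
  · intro hn s hs
    by_contra hne
    have hy : s.re - 1 / 2 ≠ 0 := sub_ne_zero.2 hne
    have h0 : sh X s.im ((s.re - 1 / 2 : ℝ) : ℂ) = 0 := by
      unfold sh
      have e : (1 / 2 + (s.im : ℂ) * I + ((s.re - 1 / 2 : ℝ) : ℂ)) = s := by
        apply Complex.ext <;> simp
      rw [e, hs]
    have h1 := ne_zero_of_nonneg (sh_slow h.slow s.im).1 (sh_fe h.fe s.im) (fun n => hn n s.im) hy h0
      (1 + θ)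
    exact h.Xne (s := 1 / 2 + (s.im : ℂ) * I + ((1 + θ : ℝ) : ℂ)) (by simp) h1

/-! ## Packets -/

/-- **The main theorem for packets.** -/
theorem fin_lag {η : ℝ} (hη : 0 < η) : ∃ C₀ : ℝ, 0 < C₀ ∧ ∀ (d : ℕ) (N : ℝ) (cn : ℝ → ℝ)
    (G X : ℂ → ℂ), Pk d N cn G X →
    (∀ (n : ℕ) (t : ℝ), (1 / 4 + η) * Real.log (cn t) + C₀ * d ≤ n → 0 < LC (sh X t) n) ∧
    ((∀ s : ℂ, X s = 0 → s.re = 1 / 2) ↔
      ∀ (n : ℕ) (t : ℝ), (n : ℝ) < (1 / 4 + η) * Real.log (cn t) + C₀ * d → 0 ≤ LC (sh X t) n) := by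
  obtain ⟨C, hC, HC⟩ := abs_pos (Bst_nonneg 1)
  obtain ⟨K, hK, HK⟩ := sharp_pos (B := Bst) (θ := 0) (η := min η 1) Bst_nonneg le_rfl (by norm_num)
    (by positivity) (min_le_right _ _)
  refine ⟨C * (1 + K), by positivity, fun d N cn G X h => ?_⟩
  have hd : (1 : ℝ) ≤ d := by exact_mod_cast h.one_le_d
  have hN := h.one_le_N
  have hle := h.le_cn
  obtain ⟨μ, L, u, e, -⟩ := h
  have key : ∀ (n : ℕ) (t : ℝ), (1 / 4 + η) * Real.log (cn t) + C * (1 + K) * d ≤ n →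
      0 < LC (sh X t) n := by
    intro n t hn
    have hlog : 0 ≤ Real.log (cn t) := Real.log_nonneg (hN.trans (hle t))
    by_cases hc : K * d ≤ Real.log (cn t)
    · refine HK d N μ X L u t n (by rw [e]; exact hc) (le_trans ?_ hn)
      rw [e]
      have h1 : min η 1 ≤ η := min_le_left _ _
      have h2 : 0 ≤ C * (1 + K) * d := by positivity
      nlinarith [mul_le_mul_of_nonneg_right h1 hlog]
    · push Not at hc
      refine HC d N 0 μ X L u (by norm_num) t n (le_trans ?_ hn)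
      rw [e]
      have h1 : 0 ≤ (1 / 4 + η) * Real.log (cn t) := by positivity
      nlinarith [mul_le_mul_of_nonneg_left hc.le hC.le]
  refine ⟨key, ?_⟩
  rw [rh_iff_lag u]
  constructor
  · intro hr n t _
    exact hr n t
  · intro hr n t
    rcases lt_or_ge (n : ℝ) ((1 / 4 + η) * Real.log (cn t) + C * (1 + K) * d) with h1 | h1
    · exact hr n t h1
    · exact (key n t h1).le

/-- **Packets with a zero-free half-plane.** -/
theorem fin_zf {η ϑ : ℝ} (hη : 0 < η) (hϑ : 0 ≤ ϑ) (hϑ1 : ϑ ≤ 1 / 2) (d : ℕ) :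
    ∃ C₁ : ℝ, ∀ (N : ℝ) (cn : ℝ → ℝ) (G X : ℂ → ℂ), Pk d N cn G X →
    (∀ s : ℂ, X s = 0 → s.re ≤ 1 / 2 + ϑ) →
    ∀ (n : ℕ) (t : ℝ), (ϑ / 2 + η) * Real.log (cn t) + C₁ ≤ n → 0 < LC (sh X t) n := by
  obtain ⟨C, hC, HC⟩ := abs_pos (Bst_nonneg 1)
  obtain ⟨K, hK, HK⟩ := zf_pos (B := Bst) (η := min η 1) Bst_nonneg hϑ hϑ1
    (by positivity) (min_le_right _ _) d
  refine ⟨C * (d + K), fun N cn G X h hz n t hn => ?_⟩
  have hN := h.one_le_N
  have hle := h.le_cn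
  obtain ⟨μ, L, u, e, -⟩ := h
  have hlog : 0 ≤ Real.log (cn t) := Real.log_nonneg (hN.trans (hle t))
  by_cases hc : K ≤ Real.log (cn t)
  · refine HK N μ X L u hz t n (by rw [e]; exact hc) (le_trans ?_ hn)
    rw [e]
    have h1 : min η 1 ≤ η := min_le_left _ _
    have h2 : 0 ≤ C * (d + K) := by positivity
    nlinarith [mul_le_mul_of_nonneg_right h1 hlog]
  · push Not at hc
    refine HC d N 0 μ X L u (by norm_num) t n (le_trans ?_ hn)
    rw [e]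
    have h1 : 0 ≤ (ϑ / 2 + η) * Real.log (cn t) := by positivity
    nlinarith [mul_le_mul_of_nonneg_left hc.le hC.le]

end Pool.Agent.TH803.LU
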